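import Pool.Agent.Lib.DN.CV.Bas

/-!
# Theorem DN, part CV, module C8: the Galois action on the values of the theta series (author helper97)
-/

set_option autoImplicit false

open scoped Pointwise nonZeroDivisors

noncomputable section

namespace Pool.Agent.DN

open Pool.Agent.MuZ Pool.Agent.FW NumberField IsDedekindDomain
open Pool.Agent.DI (io ofC io_inj exists_io io_ofC ofC_io VP MP UP TP ex sqr sqr_sq kap)

variable {n t : ℕ}

/-- The points `v/(f q)`, `v = 1` modulo `f`. -/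
theorem CV_pt [SqN n t] {f q : ℕ} (hf : 2 ≤ f) (hq : 0 < q) {c : Ideal (OO n t)} (hc0 : c ≠ ⊥)
    (hc : PrI c f) {v : OO n t} (hv : (f : OO n t) ∣ v - 1) : (toC v / ((f * q : ℕ) : ℂ)) ∉ Lam c := by
  intro h
  have hf' : (f : ℂ) ≠ 0 := by
    have : f ≠ 0 := by omega
    exact_mod_cast this
  have hq' : (q : ℂ) ≠ 0 := by exact_mod_cast hq.ne'
  have h1 := lam_nat q h
  have e : (q : ℂ) * (toC v / ((f * q : ℕ) : ℂ)) = toC v / f := by
    push_cast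
    field_simp
  rw [e, aL6.1 n t c f hc0 (by omega) hc v] at h1
  exact CV_one_not hf hv h1

theorem CV_pt_tor [SqN n t] {F : ℕ} (hF : 0 < F) (c : Ideal (OO n t)) (v : OO n t) (j : ℕ) :
    ((j * F : ℕ) : ℂ) * (toC v / (F : ℂ)) ∈ Lam c := by
  have hF' : (F : ℂ) ≠ 0 := by exact_mod_cast hF.ne'
  intro u _
  refine ⟨u * ((j : OO n t) * v), ?_⟩
  rw [toC_mul, toC_mul, toC_nat]
  push_cast
  field_simp

/-- The action on the formula. -/
theorem C8_aux [Ine n t] (hC4 : S_C4) (hE6 : S_E6) (hE10 : S_E10) {f : ℕ} {m b a : Ideal (OO n t)}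
    (hm : FM f m) (hb : FB f b) (c : ℤ) {q : ℕ} (hq : 0 < q) (hqm : q.Coprime (NI m)) (hbq : PrI b q)
    {τ : Gal(Om/ℚ)} (hτ : τ ∈ GK n t) (hpsi : Psi τ (NI m * (2 * f * q)) a) (haF : FB f a)
    (haq : PrI a q) :
    τ (etaM (2 * f) m b (c / q)) = etaM (2 * f) m (a * b) (c / q) := by
  obtain ⟨hf0, hf15, hm15, hm2f, hmo, hmc, hm0⟩ := CV_fm hm
  obtain ⟨hbG, hb2, hbf, hmb⟩ := CV_fb hm hb
  have hN : 0 < NI m * (2 * f * q) := by positivity
  have h15 : 15 ∣ NI m * (2 * f * q) :=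
    dvd_trans hm.dvd ⟨NI m * 2 * q, by ring⟩
  obtain ⟨-, -, h8⟩ := hC4 n t f m b hm hb c q hq hqm
  obtain ⟨-, -, h9⟩ := hC4 n t f m (a * b) hm (CV_fb_mul haF hb) c q hq hqm
  rw [h8 hbq, h9 (CV_pri_mul haq hbq), map_mul, map_div₀, map_one, map_natCast, map_sum]
  congr 1
  refine Finset.sum_congr rfl fun x _ => ?_
  rw [map_sum]
  refine Finset.sum_congr rfl fun y _ => ?_
  have hv : ((2 * f : ℕ) : OO n t) ∣ (⟨1 + 2 * f * x, 2 * f * y⟩ : OO n t) - 1 := by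
    rw [nat_dvd_iff, QuadraticAlgebra.re_sub, QuadraticAlgebra.im_sub, re_one, im_one]
    refine ⟨⟨x, ?_⟩, ⟨y, ?_⟩⟩
    · push_cast
      ring
    · push_cast
      ring
  rw [map_mul, map_zpow₀, hE6 n t τ _ a hτ hN h15 hpsi (zet q) (by
    have e : NI m * (2 * f * q) = q * (NI m * (2 * f)) := by ring
    rw [e, pow_mul, CV_zet_pow hq, one_pow]), CV_NI_mul]
  congr 1
  · rw [← zpow_natCast, ← zpow_mul]
    congr 1
    push_cast
    ring
  · refine ((hE10 n t τ _ a hN h15 hpsi).2 m b hm.ne hbG hm.two hm15 (Dvd.intro _ rfl) _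
      (CV_pt_tor (by positivity) b _ (NI m))).1 ?_
    exact CV_pt (by omega) hq (mul_ne_zero hm.ne hb.ne) hmb hv

/-- **`S_C8`.** -/
theorem sC8 (hC4 : S_C4) (hC6 : S_C6) (hE1 : S_E1) (hE6 : S_E6) (hE10 : S_E10) : S_C8 := by
  intro n t _ f m b hm hb r hr τ hτ a hτa
  obtain ⟨hf0, hf15, hm15, hm2f, hmo, hmc, hm0⟩ := CV_fm hm
  have h2f : 0 < 2 * f := by omega
  set q : ℕ := r.den with hq
  have hq0 : 0 < q := r.den_pos
  have hrr : ((r.num : ℤ) : ℚ) / q = r := Rat.num_div_den r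
  -- an ideal prime to `q`
  obtain ⟨b', hb'0, hb'P, -, hbb'⟩ := aO8 n t (2 * f) q h2f hq0 (fun _ => True) trivial
    (fun _ _ _ _ => trivial) (fun _ _ _ _ => trivial) b hb.ne hb.cop
  have hb' : FB f b' := ⟨hb'0, CV_pri_dvd hb'P (Dvd.intro _ rfl)⟩
  have hb'q : PrI b' q := CV_pri_dvd hb'P (Dvd.intro_left _ rfl)
  have hN : 0 < NI m * (2 * f * q) := by positivity
  have h15 : 15 ∣ NI m * (2 * f * q) := dvd_trans hm.dvd ⟨NI m * 2 * q, by ring⟩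
  obtain ⟨a', ha'⟩ := (hE1 n t _ hN h15).1 τ hτ
  have h2fN : 2 * f ∣ NI m * (2 * f * q) := ⟨NI m * q, by ring⟩
  have h152f : 15 ∣ 2 * f := dvd_trans hm.dvd (Dvd.intro_left _ rfl)
  have ha'f : Psi τ (2 * f) a' := (hE1 n t _ hN h15).2.2.2.2 τ (2 * f) a' ha' h2fN h152f
  have hray : Ray (2 * f) a a' := (hE1 n t (2 * f) h2f h152f).2.1 τ a a' hτa ha'f
  have haF : FB f a := ⟨hτa.ne, CV_pri_dvd hτa.cop (Dvd.intro_left _ rfl)⟩
  have ha'F : FB f a' := ⟨ha'.ne, CV_pri_dvd ha'f.cop (Dvd.intro_left _ rfl)⟩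
  have ha'q : PrI a' q := CV_pri_dvd ha'.cop ⟨15 * (NI m * (2 * f)), by ring⟩
  have h7 := aO7 n t (2 * f) h2f
  have hray' : Ray (2 * f) (a * b) (a' * b') := h7.2.2.2.1 a a' b b' hray hbb'
  rw [((hC6 n t f m b hm hb).1 b' hb' hbb').2 r,
    ((hC6 n t f m (a * b) hm (CV_fb_mul haF hb)).1 (a' * b') (CV_fb_mul ha'F hb') hray').2 r, ← hrr]
  exact C8_aux hC4 hE6 hE10 hm hb' r.num hq0 hr hb'q hτ ha' ha'F ha'q

end Pool.Agent.DN
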