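import Pool.Agent.Lib.DN.CV.Bas

/-!
# Theorem DN, part CV, module Rp: indexed systems of representatives (author helper97)
-/

set_option autoImplicit false

noncomputable section

namespace Pool.Agent.DN

open Pool.Agent.MuZ Pool.Agent.FW NumberField

variable {n t : ℕ}

/-- `g i`, `i ∈ I`, is a system of representatives modulo `F` of the elements with the property `Q`. -/
structure RpI (Q : OO n t → Prop) (F : ℕ) {ι : Type} (I : Finset ι) (g : ι → OO n t) : Prop where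
  mem : ∀ i ∈ I, Q (g i)
  inj : ∀ i ∈ I, ∀ j ∈ I, (F : OO n t) ∣ g i - g j → i = j
  ex : ∀ v : OO n t, Q v → ∃ i ∈ I, (F : OO n t) ∣ v - g i

/-- Two systems of representatives. -/
theorem RpI.sum {Q : OO n t → Prop} {F : ℕ} {ι κ : Type} {I : Finset ι} {J : Finset κ}
    {g : ι → OO n t} {h : κ → OO n t} (hg : RpI Q F I g) (hh : RpI Q F J h) {A : Type} [AddCommMonoid A]
    (φ : OO n t → A) (hφ : ∀ v u : OO n t, Q v → Q u → (F : OO n t) ∣ v - u → φ v = φ u) :
    ∑ i ∈ I, φ (g i) = ∑ j ∈ J, φ (h j) := by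
  classical
  by_cases hI : J.Nonempty
  · have hex : ∀ i : ι, ∃ j : κ, i ∈ I → j ∈ J ∧ (F : OO n t) ∣ g i - h j := by
      intro i
      by_cases hi : i ∈ I
      · obtain ⟨j, hj, h1⟩ := hh.ex (g i) (hg.mem i hi)
        exact ⟨j, fun _ => ⟨hj, h1⟩⟩
      · exact ⟨hI.choose, fun h1 => absurd h1 hi⟩
    choose π hπ using hex
    refine Finset.sum_bij (fun i _ => π i) (fun i hi => (hπ i hi).1) ?_ ?_ ?_
    · intro i hi j hj hij
      refine hg.inj i hi j hj ?_
      have h1 := (hπ i hi).2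
      have h2 := (hπ j hj).2
      rw [← hij] at h2
      have h3 := dvd_sub h1 h2
      rwa [sub_sub_sub_cancel_right] at h3
    · intro j hj
      obtain ⟨i, hi, h1⟩ := hg.ex (h j) (hh.mem j hj)
      refine ⟨i, hi, ?_⟩
      refine hh.inj _ (hπ i hi).1 j hj ?_
      have h3 := dvd_neg.2 (dvd_add h1 (hπ i hi).2)
      rw [sub_add_sub_cancel, neg_sub] at h3
      exact h3
    · intro i hi
      exact hφ _ _ (hg.mem i hi) (hh.mem _ (hπ i hi).1) (hπ i hi).2
  · rw [Finset.not_nonempty_iff_eq_empty] at hI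
    have hI' : I = ∅ := by
      rw [← Finset.not_nonempty_iff_eq_empty]
      rintro ⟨i, hi⟩
      obtain ⟨j, hj, -⟩ := hh.ex (g i) (hg.mem i hi)
      rw [hI] at hj
      exact absurd hj (Finset.notMem_empty j)
    rw [hI, hI', Finset.sum_empty, Finset.sum_empty]

/-- Cancellation. -/
theorem Rp_canc {F : ℕ} {a x : OO n t} (ha : Cop a F) (h : (F : OO n t) ∣ a * x) : (F : OO n t) ∣ x := by
  obtain ⟨b, -, hb⟩ := cop_inv ha
  have e : x = b * (a * x) - (a * b - 1) * x := by ring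
  rw [e]
  exact dvd_sub (dvd_mul_of_dvd_right h _) (dvd_mul_of_dvd_left hb _)

/-- Multiplication by an invertible element. -/
theorem RpI.mul {Q : OO n t → Prop} {F : ℕ} {ι : Type} {I : Finset ι} {g : ι → OO n t}
    (hg : RpI Q F I g) {a b : OO n t} (ha : Cop a F) (hab : (F : OO n t) ∣ a * b - 1)
    (h1 : ∀ v, Q v → Q (a * v)) (h2 : ∀ v, Q v → Q (b * v)) : RpI Q F I (fun i => a * g i) := by
  refine ⟨fun i hi => h1 _ (hg.mem i hi), fun i hi j hj h => hg.inj i hi j hj ?_, fun v hv => ?_⟩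
  · rw [← mul_sub] at h
    exact Rp_canc ha h
  · obtain ⟨i, hi, h3⟩ := hg.ex (b * v) (h2 v hv)
    refine ⟨i, hi, ?_⟩
    have e : v - a * g i = a * (b * v - g i) - (a * b - 1) * v := by ring
    rw [e]
    exact dvd_sub (dvd_mul_of_dvd_right h3 _) (dvd_mul_of_dvd_left hab _)

/-- The element `1 + e (x + y w)`. -/
def ga (e x y : ℕ) : OO n t := ⟨1 + e * x, e * y⟩

theorem ga_sub_one (e x y : ℕ) : (e : OO n t) ∣ ga e x y - 1 := by
  rw [nat_dvd_iff, QuadraticAlgebra.re_sub, QuadraticAlgebra.im_sub, re_one, im_one]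
  refine ⟨⟨x, ?_⟩, ⟨y, ?_⟩⟩
  · change 1 + (e : ℤ) * x - 1 = e * x
    ring
  · change (e : ℤ) * y - 0 = e * y
    ring

/-- The products `α (1 + e (x + y w))`, `x, y` modulo `q'`: a system modulo `e q'`. -/
theorem RpI.ga {f e q' : ℕ} (he : 0 < e) (hq' : 0 < q') (hfe : f ∣ e) (h2e : 2 ∣ e) {ι : Type}
    {S : Finset ι} {α : ι → OO n t} (hα : ∀ i ∈ S, Cop (α i) (e * q'))
    (hS : RpI (fun v : OO n t => (f : OO n t) ∣ v - 1 ∧ Cop v 2) e S α) :
    RpI (fun v : OO n t => (f : OO n t) ∣ v - 1 ∧ Cop v 2) (e * q')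
      (S ×ˢ (Finset.range q' ×ˢ Finset.range q')) (fun p => α p.1 * ga e p.2.1 p.2.2) := by
  have hE : ∀ x y : ℕ, (e : OO n t) ∣ Pool.Agent.DN.ga e x y - 1 := ga_sub_one e
  have he0 : (e : ℤ) ≠ 0 := by exact_mod_cast he.ne'
  have hq0 : (0 : ℤ) < q' := by exact_mod_cast hq'
  refine ⟨?_, ?_, ?_⟩
  · rintro ⟨i, x, y⟩ hp
    rw [Finset.mem_product] at hp
    obtain ⟨h1, h2⟩ := hS.mem i hp.1
    refine ⟨?_, cop_mul h2 (CV_cop_of_dvd (CV_cast_dvd h2e (hE x y)))⟩
    have e1 : α i * Pool.Agent.DN.ga e x y - 1 = α i * (Pool.Agent.DN.ga e x y - 1) + (α i - 1) := by ring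
    change (f : OO n t) ∣ α i * Pool.Agent.DN.ga e x y - 1
    rw [e1]
    exact dvd_add (dvd_mul_of_dvd_right (CV_cast_dvd hfe (hE x y)) _) h1
  · rintro ⟨i, x, y⟩ hp ⟨j, x', y'⟩ hp' h
    rw [Finset.mem_product, Finset.mem_product, Finset.mem_range, Finset.mem_range] at hp hp'
    change ((e * q' : ℕ) : OO n t) ∣ α i * Pool.Agent.DN.ga e x y - α j * Pool.Agent.DN.ga e x' y' at h
    obtain ⟨hi, hx, hy⟩ := hp
    obtain ⟨hj, hx', hy'⟩ := hp'
    have h1 : (e : OO n t) ∣ α i - α j := by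
      have h2 := CV_cast_dvd (Dvd.intro _ rfl : e ∣ e * q') h
      have e1 : α i - α j = (α i * Pool.Agent.DN.ga e x y - α j * Pool.Agent.DN.ga e x' y') -
          α i * (Pool.Agent.DN.ga e x y - 1) + α j * (Pool.Agent.DN.ga e x' y' - 1) := by ring
      rw [e1]
      exact dvd_add (dvd_sub h2 (dvd_mul_of_dvd_right (hE x y) _)) (dvd_mul_of_dvd_right (hE x' y') _)
    have hij := hS.inj i hi j hj h1
    subst hij
    rw [← mul_sub] at h
    have h2 := Rp_canc (hα i hi) h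
    rw [nat_dvd_iff, QuadraticAlgebra.re_sub, QuadraticAlgebra.im_sub] at h2
    obtain ⟨h3, h4⟩ := h2
    change ((e * q' : ℕ) : ℤ) ∣ (1 + (e : ℤ) * x) - (1 + (e : ℤ) * x') at h3
    change ((e * q' : ℕ) : ℤ) ∣ (e : ℤ) * y - (e : ℤ) * y' at h4
    have key : ∀ a b : ℕ, a < q' → b < q' → ((e * q' : ℕ) : ℤ) ∣ (e : ℤ) * a - (e : ℤ) * b → a = b := by
      intro a b ha hb h5
      rw [← mul_sub] at h5
      push_cast at h5
      have h6 : (q' : ℤ) ∣ (a : ℤ) - b := (mul_dvd_mul_iff_left he0).1 h5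
      have h7 : (a : ℤ) - b = 0 := by
        apply Int.eq_zero_of_abs_lt_dvd h6
        rw [abs_lt]
        constructor <;> omega
      omega
    have e3 : (1 + (e : ℤ) * x) - (1 + (e : ℤ) * x') = (e : ℤ) * x - (e : ℤ) * x' := by ring
    rw [e3] at h3
    rw [key x x' hx hx' h3, key y y' hy hy' h4]
  · rintro v ⟨hv1, hv2⟩
    obtain ⟨i, hi, h1⟩ := hS.ex v ⟨hv1, hv2⟩
    have hc := hα i hi
    obtain ⟨β, hβ, hab⟩ := cop_inv hc
    -- `δ = β v = 1` modulo `e`
    have h2 : (e : OO n t) ∣ β * v - 1 := by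
      have h3 := CV_cast_dvd (Dvd.intro _ rfl : e ∣ e * q') hab
      have e1 : β * v - 1 = β * (v - α i) + (α i * β - 1) := by ring
      rw [e1]
      exact dvd_add (dvd_mul_of_dvd_right h1 _) h3
    obtain ⟨w, hw⟩ := h2
    obtain ⟨x, hx⟩ : ∃ x : ℕ, (x : ℤ) = w.re % q' := ⟨(w.re % q').toNat, Int.toNat_of_nonneg (Int.emod_nonneg _ hq0.ne')⟩
    obtain ⟨y, hy⟩ : ∃ y : ℕ, (y : ℤ) = w.im % q' := ⟨(w.im % q').toNat, Int.toNat_of_nonneg (Int.emod_nonneg _ hq0.ne')⟩
    have hx1 : x < q' := by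
      have := Int.emod_lt_of_pos w.re hq0
      omega
    have hy1 : y < q' := by
      have := Int.emod_lt_of_pos w.im hq0
      omega
    refine ⟨(i, x, y), ?_, ?_⟩
    · rw [Finset.mem_product, Finset.mem_product, Finset.mem_range, Finset.mem_range]
      exact ⟨hi, hx1, hy1⟩
    · change ((e * q' : ℕ) : OO n t) ∣ v - α i * Pool.Agent.DN.ga e x y
      have h3 : ((e * q' : ℕ) : OO n t) ∣ β * v - Pool.Agent.DN.ga e x y := by
        have h4 : β * v - Pool.Agent.DN.ga e x y = (β * v - 1) - (Pool.Agent.DN.ga e x y - 1) := by ring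
        rw [h4, hw, nat_dvd_iff, QuadraticAlgebra.re_sub, QuadraticAlgebra.im_sub,
          QuadraticAlgebra.re_sub, QuadraticAlgebra.im_sub, re_one, im_one, re_mul, im_mul, re_nat, im_nat]
        have h5 := Int.emod_add_mul_ediv w.re q'
        have h6 := Int.emod_add_mul_ediv w.im q'
        rw [← hx] at h5
        rw [← hy] at h6
        constructor
        · refine ⟨w.re / q', ?_⟩
          change (e : ℤ) * w.re - n * 0 * w.im - (1 + (e : ℤ) * x - 1) = _
          push_cast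
          linear_combination (-(e : ℤ)) * h5
        · refine ⟨w.im / q', ?_⟩
          change (e : ℤ) * w.im + 0 * w.re + t * 0 * w.im - ((e : ℤ) * y - 0) = _
          push_cast
          linear_combination (-(e : ℤ)) * h6
      have e5 : v - α i * Pool.Agent.DN.ga e x y = α i * (β * v - Pool.Agent.DN.ga e x y) - (α i * β - 1) * v := by ring
      rw [e5]
      exact dvd_sub (dvd_mul_of_dvd_right h3 _) (dvd_mul_of_dvd_left hab _)

end Pool.Agent.DN
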