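import Pool.Agent.Lib.DN.O.All
import Pool.Agent.Lib.DN.IfaceC

/-!
# Theorem DN, part CV: elementary facts (author helper97)
-/

set_option autoImplicit false

open scoped Pointwise nonZeroDivisors

noncomputable section

namespace Pool.Agent.DN

open Pool.Agent.MuZ Pool.Agent.FW NumberField IsDedekindDomain
open Pool.Agent.DI (io ofC io_inj exists_io io_ofC ofC_io VP MP UP TP ex sqr sqr_sq kap)

variable {n t : ℕ}

/-! ## Roots of unity -/

theorem CV_ex_pow {q : ℕ} (hq : 0 < q) : (ex (1 / q) : ℂ) ^ q = 1 := by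
  have hq' : (q : ℂ) ≠ 0 := by exact_mod_cast hq.ne'
  unfold ex
  rw [← Complex.exp_nat_mul]
  refine Eq.trans ?_ Complex.exp_two_pi_mul_I
  congr 1
  field_simp

theorem CV_io_zet {q : ℕ} (hq : 0 < q) : io (zet q) = ex (1 / q) := by
  refine io_ofC _ ⟨Polynomial.X ^ q - 1, ?_, ?_⟩
  · exact Polynomial.X_pow_sub_C_ne_zero (R := ℚ) hq 1
  · rw [map_sub, map_pow, Polynomial.aeval_X, map_one, CV_ex_pow hq, sub_self]

theorem CV_zet_pow {q : ℕ} (hq : 0 < q) : zet q ^ q = 1 := by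
  apply io_inj
  rw [map_pow, CV_io_zet hq, CV_ex_pow hq, map_one]

theorem CV_zet_ne {q : ℕ} (hq : 0 < q) : zet q ≠ 0 := by
  intro h
  have h1 := CV_zet_pow hq
  rw [h, zero_pow hq.ne'] at h1
  exact zero_ne_one h1

/-- Exponents modulo `q`. -/
theorem CV_zet_congr {q : ℕ} (hq : 0 < q) {a b : ℤ} (h : (q : ℤ) ∣ a - b) : zet q ^ a = zet q ^ b := by
  obtain ⟨s, hs⟩ := h
  have e : a = b + q * s := by linarith
  rw [e, zpow_add₀ (CV_zet_ne hq), zpow_mul, zpow_natCast, CV_zet_pow hq, one_zpow, mul_one]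

theorem CV_up_of_pow {P : Ideal ZZ} (hP : P.IsPrime) {x : Om} {q : ℕ} (hq : 0 < q) (h : x ^ q = 1) :
    UP P x := by
  refine DI.UP.of_pow hq ?_
  rw [h]
  exact DI.UP.one

theorem CV_up_zpow {P : Ideal ZZ} (hP : P.IsPrime) {x : Om} (h : UP P x) (j : ℤ) : UP P (x ^ j) := by
  obtain ⟨m, rfl | rfl⟩ := j.eq_nat_or_neg
  · rw [zpow_natCast]
    exact h.pow m
  · rw [zpow_neg, zpow_natCast]
    exact (h.pow m).inv

/-! ## Odd integers -/

theorem CV_mp_even {P : Ideal ZZ} (hP : P.IsPrime) (h2 : MP P 2) {j : ℤ} (hj : Even j) :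
    MP P (j : Om) := by
  obtain ⟨m, rfl⟩ := hj
  have e : ((m + m : ℤ) : Om) = (m : Om) * 2 := by
    push_cast
    ring
  rw [e]
  exact DI.MP.mul_left (DI.VP.int m) h2

theorem CV_up_odd {P : Ideal ZZ} (hP : P.IsPrime) (h2 : MP P 2) {j : ℤ} (hj : Odd j) :
    UP P (j : Om) := by
  refine ⟨DI.VP.int j, fun h => ?_⟩
  obtain ⟨m, rfl⟩ := hj
  have h3 := CV_mp_even hP h2 (even_two_mul m)
  have h4 := h.sub h3
  have e : ((2 * m + 1 : ℤ) : Om) - ((2 * m : ℤ) : Om) = 1 := by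
    push_cast
    ring
  rw [e] at h4
  exact DI.MP.one_not h4

theorem CV_up_oddN {P : Ideal ZZ} (hP : P.IsPrime) (h2 : MP P 2) {j : ℕ} (hj : Odd j) :
    UP P (j : Om) := by
  have h := CV_up_odd hP h2 (j := (j : ℤ)) (by exact_mod_cast hj)
  rwa [Int.cast_natCast] at h

theorem CV_mp_int {P : Ideal ZZ} (hP : P.IsPrime) (h2 : MP P 2) {j : ℤ} (hj : Odd j) :
    MP P ((j : Om) - 1) := by
  obtain ⟨m, rfl⟩ := hj
  have e : ((2 * m + 1 : ℤ) : Om) - 1 = (m : Om) * 2 := by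
    push_cast
    ring
  rw [e]
  exact DI.MP.mul_left (DI.VP.int m) h2

/-! ## The ideals `t V_P` -/

theorem CV_tp_zero {P : Ideal ZZ} (hP : P.IsPrime) (s : Om) : TP P s 0 :=
  ⟨0, DI.VP.zero, by ring⟩

theorem CV_tp_add {P : Ideal ZZ} (hP : P.IsPrime) {s x y : Om} (hx : TP P s x) (hy : TP P s y) :
    TP P s (x + y) := by
  obtain ⟨a, ha, rfl⟩ := hx
  obtain ⟨b, hb, rfl⟩ := hy
  exact ⟨a + b, ha.add hb, by ring⟩

theorem CV_tp_neg {P : Ideal ZZ} {s x : Om} (hx : TP P s x) : TP P s (-x) := by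
  obtain ⟨a, ha, rfl⟩ := hx
  exact ⟨-a, ha.neg, by ring⟩

theorem CV_tp_sub {P : Ideal ZZ} (hP : P.IsPrime) {s x y : Om} (hx : TP P s x) (hy : TP P s y) :
    TP P s (x - y) := by
  rw [sub_eq_add_neg]
  exact CV_tp_add hP hx (CV_tp_neg hy)

theorem CV_tp_mul {P : Ideal ZZ} (hP : P.IsPrime) {s x y : Om} (hx : TP P s x) (hy : VP P y) :
    TP P s (x * y) := by
  obtain ⟨a, ha, rfl⟩ := hx
  exact ⟨a * y, ha.mul hy, by ring⟩

theorem CV_tp_sum {P : Ideal ZZ} (hP : P.IsPrime) {s : Om} {ι : Type} (S : Finset ι) (f : ι → Om)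
    (h : ∀ i ∈ S, TP P s (f i)) : TP P s (∑ i ∈ S, f i) := by
  classical
  induction S using Finset.induction_on with
  | empty => rw [Finset.sum_empty]; exact CV_tp_zero hP s
  | insert a S ha ih =>
    rw [Finset.sum_insert ha]
    exact CV_tp_add hP (h a (Finset.mem_insert_self a S))
      (ih fun i hi => h i (Finset.mem_insert_of_mem hi))

theorem CV_tp_mp {P : Ideal ZZ} (hP : P.IsPrime) {s x : Om} (hs : MP P s) (h : TP P s x) : MP P x := by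
  obtain ⟨a, ha, rfl⟩ := h
  exact DI.MP.mul_right hs ha

theorem CV_two_vp {P : Ideal ZZ} (hP : P.IsPrime) : VP P (2 : Om) := by
  have h1 : VP P ((2 : ℤ) : Om) := DI.VP.int 2
  rwa [Int.cast_ofNat] at h1

/-! ## Congruences modulo `P` -/

theorem CV_mp_refl {P : Ideal ZZ} (hP : P.IsPrime) (x : Om) : MP P (x - x) := by
  rw [sub_self]
  exact DI.MP.zero

theorem CV_mp_symm {P : Ideal ZZ} {x y : Om} (h : MP P (x - y)) : MP P (y - x) := by
  have h1 := h.neg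
  rwa [neg_sub] at h1

theorem CV_mp_trans {P : Ideal ZZ} (hP : P.IsPrime) {x y z : Om} (h : MP P (x - y)) (h' : MP P (y - z)) :
    MP P (x - z) := by
  have h1 := h.add h'
  rwa [sub_add_sub_cancel] at h1

theorem CV_mp_mul {P : Ideal ZZ} (hP : P.IsPrime) {x y x' y' : Om} (hy : VP P y) (hx' : VP P x')
    (h : MP P (x - x')) (h' : MP P (y - y')) : MP P (x * y - x' * y') := by
  have e : x * y - x' * y' = (x - x') * y + x' * (y - y') := by ring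
  rw [e]
  exact (DI.MP.mul_right h hy).add (DI.MP.mul_left hx' h')

/-! ## Denominators -/

theorem CV_den_coprime {r : ℚ} {p q : ℤ} {M : ℕ} (hq : IsCoprime q (M : ℤ)) (hM : 2 ≤ M)
    (h : r = p / q) : r.den.Coprime M := by
  have hq0 : q ≠ 0 := by
    rintro rfl
    have h1 := Int.isUnit_iff.1 (isCoprime_zero_left.1 hq)
    omega
  have h1 : (r.den : ℤ) ∣ q := by
    rw [h, ← Rat.divInt_eq_div]
    exact Rat.den_dvd p q
  exact Nat.isCoprime_iff_coprime.1 (hq.of_isCoprime_of_dvd_left h1)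

/-- The values of the elements of `Γ_0(M)`. -/
theorem CV_mob {M : ℕ} (hM : 2 ≤ M) {a b c d : ℤ} (h : G0 M a b c d) {r : ℚ} (hr : r.den.Coprime M) :
    IsCoprime d (M : ℤ) ∧ IsCoprime a (M : ℤ) ∧ (c : ℚ) * r + d ≠ 0 ∧
      ((a * r + b) / (c * r + d) : ℚ).den.Coprime M := by
  obtain ⟨h1, c', rfl⟩ := h
  have hd : IsCoprime d (M : ℤ) := ⟨a, -(b * c'), by linarith⟩
  have ha : IsCoprime a (M : ℤ) := ⟨d, -(b * c'), by linarith⟩
  have hr' : IsCoprime (r.den : ℤ) (M : ℤ) := Nat.isCoprime_iff_coprime.2 hr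
  have hden : (r.den : ℚ) ≠ 0 := by exact_mod_cast r.den_ne_zero
  have hrr : r = r.num / r.den := (Rat.num_div_den r).symm
  have hq : IsCoprime (M * c' * r.num + d * r.den) (M : ℤ) := by
    have e : (M : ℤ) * c' * r.num + d * r.den = d * r.den + M * (c' * r.num) := by ring
    rw [e]
    exact (IsCoprime.add_mul_left_left_iff).2 (hd.mul_left hr')
  have hq0 : (M * c' * r.num + d * r.den : ℤ) ≠ 0 := by
    intro h0
    rw [h0] at hq
    have h1 := Int.isUnit_iff.1 (isCoprime_zero_left.1 hq)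
    omega
  have hq0' : ((M * c' * r.num + d * r.den : ℤ) : ℚ) ≠ 0 := by exact_mod_cast hq0
  have e1 : ((M * c' : ℤ) : ℚ) * r + d = ((M * c' * r.num + d * r.den : ℤ) : ℚ) / r.den := by
    rw [eq_div_iff hden]
    push_cast
    have : r * r.den = r.num := Rat.mul_den_eq_num r
    linear_combination (M * c' : ℚ) * this
  have hne : ((M * c' : ℤ) : ℚ) * r + d ≠ 0 := by
    rw [e1]
    exact div_ne_zero hq0' hden
  refine ⟨hd, ha, hne, ?_⟩
  refine CV_den_coprime (p := a * r.num + b * r.den) hq hM ?_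
  rw [e1, div_div_eq_mul_div]
  congr 1
  push_cast
  have : r * r.den = r.num := Rat.mul_den_eq_num r
  linear_combination (a : ℚ) * this

/-! ## The ring, ideals -/

theorem CV_cast_two : (((2 : ℕ) : OO n t)) = 2 := by norm_num

theorem CV_cast_dvd {N M : ℕ} (h : M ∣ N) {v : OO n t} (hv : (N : OO n t) ∣ v) : (M : OO n t) ∣ v := by
  obtain ⟨s, rfl⟩ := h
  refine dvd_trans ⟨(s : OO n t), ?_⟩ hv
  push_cast
  ring

/-- Coprime moduli. -/
theorem CV_cast_mul {N M : ℕ} (h : N.Coprime M) {v : OO n t} (hN : (N : OO n t) ∣ v)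
    (hM : (M : OO n t) ∣ v) : ((N * M : ℕ) : OO n t) ∣ v := by
  rw [nat_dvd_iff] at hN hM ⊢
  have h' : IsCoprime (N : ℤ) (M : ℤ) := Nat.isCoprime_iff_coprime.2 h
  push_cast
  exact ⟨h'.mul_dvd hN.1 hM.1, h'.mul_dvd hN.2 hM.2⟩

theorem CV_two_not {v : OO n t} (h : (2 : OO n t) ∣ v - 1) : ¬ (2 : OO n t) ∣ v := by
  intro h1
  have h2 : (2 : OO n t) ∣ 1 := by
    have h3 := dvd_sub h1 h
    rwa [sub_sub_cancel] at h3
  rw [← CV_cast_two, nat_dvd_iff, re_one] at h2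
  have h3 := h2.1
  norm_num at h3

theorem CV_one_not {N : ℕ} (hN : 2 ≤ N) {v : OO n t} (h : (N : OO n t) ∣ v - 1) : ¬ (N : OO n t) ∣ v := by
  intro h1
  have h2 : (N : OO n t) ∣ 1 := by
    have h3 := dvd_sub h1 h
    rwa [sub_sub_cancel] at h3
  rw [nat_dvd_iff, re_one] at h2
  have h4 := Int.le_of_dvd one_pos h2.1
  omega

theorem CV_top (N : ℕ) : PrI (⊤ : Ideal (OO n t)) N := top_sup_eq _

theorem CV_sp_ne {v : OO n t} (hv : v ≠ 0) : sp v ≠ ⊥ := by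
  intro h
  exact hv (Ideal.span_singleton_eq_bot.1 h)

theorem CV_sp_mul (v u : OO n t) : sp v * sp u = sp (v * u) :=
  Ideal.span_singleton_mul_span_singleton v u

theorem CV_sp_one : sp (1 : OO n t) = ⊤ := Ideal.span_singleton_one

theorem CV_int_ne {j : ℤ} (hj : j ≠ 0) : ((j : ℤ) : OO n t) ≠ 0 := by
  intro h
  have h1 := congrArg (fun v : OO n t => v.re) h
  rw [re_int] at h1
  exact hj h1

theorem CV_ne_of_cop {N : ℕ} (hN : 2 ≤ N) {v : OO n t} (h : Cop v N) : v ≠ 0 := by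
  rintro rfl
  unfold Cop at h
  rw [Nm_zero] at h
  have h1 := Int.isUnit_iff.1 (isCoprime_zero_left.1 h)
  omega

theorem CV_cop_mul {N M : ℕ} {v : OO n t} : Cop v (N * M) ↔ Cop v N ∧ Cop v M := by
  unfold Cop
  push_cast
  exact IsCoprime.mul_right_iff

theorem CV_cop_of_dvd {N : ℕ} {v : OO n t} (h : (N : OO n t) ∣ v - 1) : Cop v N := by
  refine cop_congr ?_ (cop_one N)
  have h1 := (dvd_neg).2 h
  rwa [neg_sub] at h1

theorem CV_cop_int {N : ℕ} {j : ℤ} (h : IsCoprime j (N : ℤ)) : Cop (j : OO n t) N := by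
  unfold Cop
  rw [Nm_int]
  exact h.pow_left

theorem CV_pri_sp [SqN n t] {N : ℕ} (hN : 0 < N) {v : OO n t} (h : Cop v N) : PrI (sp v) N :=
  ((aO6 n t).2.2.2.1 N v hN).2 h

theorem CV_pri_mul [SqN n t] {N : ℕ} {a b : Ideal (OO n t)} (ha : PrI a N) (hb : PrI b N) :
    PrI (a * b) N := ((aO6 n t).1 N a b).2 ⟨ha, hb⟩

theorem CV_pri_dvd [SqN n t] {N M : ℕ} {a : Ideal (OO n t)} (h : PrI a N) (hM : M ∣ N) : PrI a M := by
  obtain ⟨s, rfl⟩ := hM
  exact (((aO6 n t).2.1 M s a).1 h).1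

theorem CV_pri_mulN [SqN n t] {N M : ℕ} {a : Ideal (OO n t)} (h : PrI a N) (h' : PrI a M) :
    PrI a (N * M) := ((aO6 n t).2.1 N M a).2 ⟨h, h'⟩

theorem CV_pri_pow [SqN n t] {M : ℕ} {a : Ideal (OO n t)} (h : PrI a M) (j : ℕ) : PrI a (M ^ j) := by
  induction j with
  | zero =>
    unfold PrI
    rw [pow_zero, Nat.cast_one, Ideal.span_singleton_one, sup_top_eq]
  | succ j ih =>
    rw [pow_succ]
    exact CV_pri_mulN ih h

theorem CV_NI_ne [SqN n t] {a : Ideal (OO n t)} (h : a ≠ ⊥) : 0 < NI a :=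
  Nat.pos_of_ne_zero fun h1 => h (((aO2 n t).2.2.2.2.2.1 a).1 h1)

theorem CV_NI_mul [SqN n t] (a b : Ideal (OO n t)) : NI (a * b) = NI a * NI b :=
  (aO2 n t).2.2.2.2.1 a b

theorem CV_NI_sp [SqN n t] (v : OO n t) : (NI (sp v) : ℤ) = Nm v := (aO2 n t).2.2.2.1 v

theorem CV_NI_cop [SqN n t] {N : ℕ} (hN : 0 < N) {a : Ideal (OO n t)} : PrI a N ↔ (NI a).Coprime N :=
  (aO6 n t).2.2.1 N a hN

theorem CV_NI_odd [SqN n t] {m : Ideal (OO n t)} (h : PrI m 2) : Odd (NI m) :=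
  Nat.coprime_two_right.1 ((CV_NI_cop (by norm_num)).1 h)

theorem CV_NI_mem [SqN n t] (a : Ideal (OO n t)) : ((NI a : ℕ) : OO n t) ∈ a := by
  have h := ((aO3 n t).2.2.1 a).2.2
  have h1 : ((NI a : ℕ) : OO n t) ∈ sp ((NI a : ℕ) : OO n t) := Ideal.mem_span_singleton_self _
  have h2 : sp ((NI a : ℕ) : OO n t) ≤ a := h.symm.le.trans Ideal.mul_le_left
  exact h2 h1

/-! ## `FM`, `FB` -/

theorem CV_fm [SqN n t] {f : ℕ} {m : Ideal (OO n t)} (h : FM f m) :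
    0 < f ∧ 15 ≤ f ∧ PrI m 15 ∧ PrI m (2 * f) ∧ Odd (NI m) ∧ (NI m).Coprime (2 * f) ∧ 0 < NI m := by
  have h0 := h.odd.pos
  have h1 : 15 ≤ f := Nat.le_of_dvd h0 h.dvd
  have h2 := CV_pri_mulN h.two h.cop
  exact ⟨h0, h1, CV_pri_dvd h.cop h.dvd, h2, CV_NI_odd h.two, (CV_NI_cop (by omega)).1 h2, CV_NI_ne h.ne⟩

theorem CV_fb [SqN n t] {f : ℕ} {m b : Ideal (OO n t)} (h : FM f m) (hb : FB f b) :
    G15 b ∧ PrI b 2 ∧ PrI b f ∧ PrI (m * b) (2 * f) := by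
  obtain ⟨h0, h1, h2, h3, -⟩ := CV_fm h
  have h4 : PrI b 2 := CV_pri_dvd hb.cop (Dvd.intro _ rfl)
  have h5 : PrI b f := CV_pri_dvd hb.cop (Dvd.intro_left _ rfl)
  exact ⟨⟨hb.ne, CV_pri_dvd h5 h.dvd⟩, h4, h5, CV_pri_mul h3 hb.cop⟩

theorem CV_fb_mul [SqN n t] {f : ℕ} {a b : Ideal (OO n t)} (ha : FB f a) (hb : FB f b) :
    FB f (a * b) := ⟨mul_ne_zero ha.ne hb.ne, CV_pri_mul ha.cop hb.cop⟩

theorem CV_fb_top (f : ℕ) : FB (n := n) (t := t) f ⊤ := ⟨fun h => by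
  have h1 : (1 : OO n t) ∈ (⊥ : Ideal (OO n t)) := h ▸ Submodule.mem_top
  have h2 : (1 : OO n t) = 0 := h1
  have h3 := congrArg (fun v : OO n t => v.re) h2
  rw [re_one] at h3
  exact one_ne_zero h3, CV_top _⟩

theorem CV_fb_sp [SqN n t] {f : ℕ} (hf : 0 < f) {v : OO n t} (h : Cop v (2 * f)) : FB f (sp v) :=
  ⟨CV_sp_ne (CV_ne_of_cop (by omega) h), CV_pri_sp (by omega) h⟩

/-! ## The classes modulo `2` -/

/-- The elements of `tm`. -/
theorem CV_tm [Ine n t] {f : ℕ} (hf : Odd f) {α : OO n t} (h : α ∈ tm n t f) :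
    (f : OO n t) ∣ α - 1 ∧ Cop α 2 := by
  obtain ⟨j, hj⟩ := hf
  have h4 := (aO4 n t).2.2.1
  unfold tm at h
  rw [Finset.mem_insert, Finset.mem_insert, Finset.mem_singleton] at h
  rcases h with rfl | rfl | rfl
  · exact ⟨by rw [sub_self]; exact dvd_zero _, cop_one 2⟩
  · refine ⟨?_, ?_⟩
    · rw [nat_dvd_iff, QuadraticAlgebra.re_sub, QuadraticAlgebra.im_sub, re_one, im_one]
      exact ⟨⟨-1, by ring⟩, ⟨1, by ring⟩⟩
    · rw [h4, ← CV_cast_two, nat_dvd_iff]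
      rintro ⟨-, h1⟩
      change ((2 : ℕ) : ℤ) ∣ (f : ℤ) at h1
      omega
  · refine ⟨?_, ?_⟩
    · rw [nat_dvd_iff, QuadraticAlgebra.re_sub, QuadraticAlgebra.im_sub, re_one, im_one]
      exact ⟨⟨0, by ring⟩, ⟨1, by ring⟩⟩
    · rw [h4, ← CV_cast_two, nat_dvd_iff]
      rintro ⟨-, h1⟩
      change ((2 : ℕ) : ℤ) ∣ (f : ℤ) at h1
      omega

theorem CV_tm_uni {f : ℕ} (hf : Odd f) {α α' : OO n t} (h : α ∈ tm n t f) (h' : α' ∈ tm n t f)
    (hd : (2 : OO n t) ∣ α - α') : α = α' := by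
  obtain ⟨j, hj⟩ := hf
  rw [← CV_cast_two, nat_dvd_iff, QuadraticAlgebra.re_sub, QuadraticAlgebra.im_sub] at hd
  push_cast at hd
  unfold tm at h h'
  rw [Finset.mem_insert, Finset.mem_insert, Finset.mem_singleton] at h h'
  rcases h with rfl | rfl | rfl <;> rcases h' with rfl | rfl | rfl
  · rfl
  · exfalso; have h1 := hd.2; rw [im_one] at h1; change (2 : ℤ) ∣ 0 - (f : ℤ) at h1; omega
  · exfalso; have h1 := hd.2; rw [im_one] at h1; change (2 : ℤ) ∣ 0 - (f : ℤ) at h1; omega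
  · exfalso; have h1 := hd.2; rw [im_one] at h1; change (2 : ℤ) ∣ (f : ℤ) - 0 at h1; omega
  · rfl
  · exfalso; have h1 := hd.1; change (2 : ℤ) ∣ (1 - (f : ℤ)) - 1 at h1; omega
  · exfalso; have h1 := hd.2; rw [im_one] at h1; change (2 : ℤ) ∣ (f : ℤ) - 0 at h1; omega
  · exfalso; have h1 := hd.1; change (2 : ℤ) ∣ 1 - (1 - (f : ℤ)) at h1; omega
  · rfl

theorem CV_tm_ex [Ine n t] {f : ℕ} (hf : Odd f) {v : OO n t} (hv : Cop v 2) :
    ∃ α ∈ tm n t f, (2 : OO n t) ∣ v - α := by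
  obtain ⟨j, hj⟩ := hf
  have h1 : ¬ (2 : OO n t) ∣ v := ((aO4 n t).2.2.1 v).1 hv
  have key : ∀ u α : OO n t, (2 : OO n t) ∣ v - u → (2 : OO n t) ∣ u - α → (2 : OO n t) ∣ v - α := by
    intro u α h2 h3
    have h4 := dvd_add h2 h3
    rwa [sub_add_sub_cancel] at h4
  rcases (aO12 n t).2.2.1 v with h2 | h2 | h2 | h2
  · exact absurd h2 h1
  · exact ⟨1, by unfold tm; simp, h2⟩
  · refine ⟨⟨1 - f, f⟩, by unfold tm; simp, key _ _ h2 ?_⟩
    rw [← CV_cast_two, nat_dvd_iff, QuadraticAlgebra.re_sub, QuadraticAlgebra.im_sub]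
    constructor
    · change ((2 : ℕ) : ℤ) ∣ 0 - (1 - (f : ℤ))
      omega
    · change ((2 : ℕ) : ℤ) ∣ 1 - (f : ℤ)
      omega
  · refine ⟨⟨1, f⟩, by unfold tm; simp, key _ _ h2 ?_⟩
    have e : (1 + wI n t).re = 1 ∧ (1 + wI n t).im = 1 := by
      constructor
      · rw [QuadraticAlgebra.re_add, re_one]; rfl
      · rw [QuadraticAlgebra.im_add, im_one]; rfl
    rw [← CV_cast_two, nat_dvd_iff, QuadraticAlgebra.re_sub, QuadraticAlgebra.im_sub, e.1, e.2]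
    constructor
    · change ((2 : ℕ) : ℤ) ∣ 1 - 1
      omega
    · change ((2 : ℕ) : ℤ) ∣ 1 - (f : ℤ)
      omega

/-! ## Levels -/

theorem CV_lv [SqN n t] {f M : ℕ} {m : Ideal (OO n t)} {R : Finset (Ideal (OO n t))} (h : IsLv f m R M)
    {b : Ideal (OO n t)} (hb : b ∈ R) : IsLv f m {b} M := by
  refine ⟨h.odd, h.three, dvd_trans ?_ h.dvd⟩
  unfold lev
  rw [Finset.prod_singleton]
  exact mul_dvd_mul_left _ (pow_dvd_pow_of_dvd (mul_dvd_mul_left _ (Finset.dvd_prod_of_mem NI hb)) 3)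

theorem CV_lvd [SqN n t] {f M : ℕ} {m : Ideal (OO n t)} {R : Finset (Ideal (OO n t))} (h : IsLv f m R M) :
    f ∣ M ∧ NI m ∣ M ∧ Dk n t ∣ M ∧ ∀ b ∈ R, NI b ∣ M := by
  have h1 := h.dvd
  unfold lev at h1
  refine ⟨dvd_trans ?_ h1, dvd_trans ?_ h1, dvd_trans ?_ h1, fun b hb => dvd_trans ?_ h1⟩
  · exact Dvd.dvd.mul_right (Dvd.intro_left (Dk n t * f) (by ring)) _
  · exact Dvd.dvd.mul_left (dvd_pow (Dvd.intro _ rfl) (by norm_num)) _
  · exact Dvd.dvd.mul_right (Dvd.intro _ rfl) _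
  · exact Dvd.dvd.mul_left (dvd_pow (Dvd.dvd.mul_left (Finset.dvd_prod_of_mem NI hb) _) (by norm_num)) _

end Pool.Agent.DN
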