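import Pool.Agent.Lib.DN.CV.C10b
import Pool.Agent.Lib.DN.G.RUp
import Pool.Agent.Lib.DN.G.Cop

/-!
# Theorem DN, part CV, module V1: class functions (author helper97)
-/

set_option autoImplicit false

open scoped Pointwise nonZeroDivisors

noncomputable section

namespace Pool.Agent.DN

open Pool.Agent.MuZ Pool.Agent.FW NumberField IsDedekindDomain
open Pool.Agent.DI (io ofC io_inj exists_io io_ofC ofC_io VP MP UP TP ex sqr sqr_sq kap)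

variable {n t : ℕ}

/-! ## Rays -/

theorem V1_ray_congr [SqN n t] {F : ℕ} (hF : 2 ≤ F) {v u : OO n t} (hv : Cop v F) (hu : Cop u F)
    (h : (F : OO n t) ∣ v - u) : Ray F (sp v) (sp u) := by
  refine ((aO7 n t F (by omega)).2.2.2.2.2.2.2.1 v u (CV_ne_of_cop hF hv) (CV_ne_of_cop hF hu) hv hu).2
    ⟨1, Nm_one, ?_⟩
  rwa [one_mul]

theorem V1_ray_mul [SqN n t] {F : ℕ} (hF : 0 < F) {a a' b b' : Ideal (OO n t)} (h : Ray F a a')
    (h' : Ray F b b') : Ray F (a * b) (a' * b') := (aO7 n t F hF).2.2.2.1 a a' b b' h h'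

theorem V1_ray_refl [SqN n t] {F : ℕ} (hF : 0 < F) (a : Ideal (OO n t)) : Ray F a a :=
  (aO7 n t F hF).1 a

theorem V1_ray_symm [SqN n t] {F : ℕ} (hF : 0 < F) {a b : Ideal (OO n t)} (h : Ray F a b) : Ray F b a :=
  (aO7 n t F hF).2.1 a b h

theorem V1_ray_trans [SqN n t] {F : ℕ} (hF : 0 < F) {a b c : Ideal (OO n t)} (h : Ray F a b)
    (h' : Ray F b c) : Ray F a c := (aO7 n t F hF).2.2.1 a b c h h'

/-- Elements equal to `1` modulo `F` which realise a ray equivalence. -/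
theorem V1_ray_one [SqN n t] {F : ℕ} (hF : 2 ≤ F) {a b : Ideal (OO n t)} (h : Ray F a b) :
    ∃ β β' : OO n t, Cop β F ∧ Cop β' F ∧ (F : OO n t) ∣ β - 1 ∧ (F : OO n t) ∣ β' - 1 ∧
      sp β * a = sp β' * b := by
  obtain ⟨α, α', h1, h2, h3, h4, h5, h6⟩ := h
  obtain ⟨γ, hγ, h7⟩ := cop_inv h3
  refine ⟨α * γ, α' * γ, cop_mul h3 hγ, cop_mul h4 hγ, h7, ?_, ?_⟩
  · have e : α' * γ - 1 = (α * γ - 1) - γ * (α - α') := by ring
    rw [e]
    exact dvd_sub h7 (dvd_mul_of_dvd_right h5 _)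
  · rw [← CV_sp_mul, ← CV_sp_mul]
    have h8 : sp α * a = sp α' * b := h6
    calc sp α * sp γ * a = sp γ * (sp α * a) := by ring
      _ = sp γ * (sp α' * b) := by rw [h8]
      _ = sp α' * sp γ * b := by ring

/-- Lifting from the modulus `f` to `2 f`. -/
theorem V1_lift [Ine n t] {f : ℕ} (hf : 0 < f) {b b' : Ideal (OO n t)} (hb : FB f b) (hb' : FB f b')
    (h : Ray f b b') : ∃ γ : OO n t, (f : OO n t) ∣ γ - 1 ∧ Cop γ 2 ∧ Ray (2 * f) b' (sp γ * b) := by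
  have e : f * 2 = 2 * f := by ring
  have h1 := hb.cop
  have h2 := hb'.cop
  rw [← e] at h1 h2
  obtain ⟨γ, -, h3, h4, h5⟩ := G.tRUp aO6 (G.tCop aO4) n t f 2 b b' hf (by norm_num) hb.ne hb'.ne h1 h2
    (V1_ray_symm hf h)
  rw [e] at h5
  exact ⟨γ, h3, cop_dvd h4 (Dvd.intro_left _ rfl), h5⟩

/-! ## The functions `E_b` -/

theorem V1_tm_rp [Ine n t] {f : ℕ} (hf : Odd f) :
    RpI (fun v : OO n t => (f : OO n t) ∣ v - 1 ∧ Cop v 2) (2 * f) (tm n t f) (fun v : OO n t => v) := by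
  refine ⟨fun α hα => CV_tm hf hα, fun α hα β hβ h => CV_tm_uni hf hα hβ ?_, ?_⟩
  · have h1 := CV_cast_dvd (Dvd.intro _ rfl : 2 ∣ 2 * f) h
    rwa [CV_cast_two] at h1
  · rintro v ⟨hv1, hv2⟩
    obtain ⟨α, hα, h1⟩ := CV_tm_ex hf hv2
    refine ⟨α, hα, CV_cast_mul (Nat.coprime_two_left.2 hf) (by rwa [CV_cast_two]) ?_⟩
    have h2 := dvd_sub hv1 (CV_tm hf hα).1
    rwa [sub_sub_sub_cancel_right] at h2

theorem V1_cop2f {f : ℕ} {v : OO n t} (h1 : (f : OO n t) ∣ v - 1) (h2 : Cop v 2) : Cop v (2 * f) :=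
  CV_cop_mul.2 ⟨h2, CV_cop_of_dvd h1⟩

/-- `E_b` depends only on the class modulo `2 f`. -/
theorem V1_E_ray [Ine n t] (hC6 : S_C6) {P : Ideal ZZ} {k f : ℕ} {m b b' : Ideal (OO n t)} (hm : FM f m)
    (hb : FB f b) (hb' : FB f b') (h : Ray (2 * f) b b') (r : ℚ) : etE P f k m b r = etE P f k m b' r := by
  have hf0 := hm.odd.pos
  unfold etE
  refine Finset.sum_congr rfl fun α hα => ?_
  obtain ⟨h1, h2⟩ := CV_tm hm.odd hα
  have h3 := V1_cop2f h1 h2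
  have hA := CV_fb_sp hf0 h3
  rw [((hC6 n t f m _ hm (CV_fb_mul hA hb)).1 _ (CV_fb_mul hA hb')
    (V1_ray_mul (by omega) (V1_ray_refl (by omega) _) h)).2 (r / 2)]

/-- `E_(γ b)`, `γ = 1` modulo `f`, odd. -/
theorem V1_E_mul [Ine n t] (hT0 : S_T0) (hC6 : S_C6) {P : Ideal ZZ} (hP : Ab2 P) {k f : ℕ}
    {m b : Ideal (OO n t)} (hm : FM f m) (hb : FB f b) {γ : OO n t} (h1 : (f : OO n t) ∣ γ - 1)
    (h2 : Cop γ 2) (r : ℚ) : zt P γ ^ k * etE P f k m (sp γ * b) r = etE P f k m b r := by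
  have hf0 := hm.odd.pos
  have hc := V1_cop2f h1 h2
  obtain ⟨δ, hδ, hγδ⟩ := cop_inv hc
  have hδ2 : Cop δ 2 := cop_dvd hδ (Dvd.intro _ rfl)
  have hδ1 : (f : OO n t) ∣ δ - 1 := by
    have h3 := CV_cast_dvd (Dvd.intro_left _ rfl : f ∣ 2 * f) hγδ
    have e : δ - 1 = (γ * δ - 1) - δ * (γ - 1) := by ring
    rw [e]
    exact dvd_sub h3 (dvd_mul_of_dvd_right h1 _)
  have hQ : ∀ {a : OO n t}, (f : OO n t) ∣ a - 1 → Cop a 2 → ∀ v : OO n t,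
      ((f : OO n t) ∣ v - 1 ∧ Cop v 2) → ((f : OO n t) ∣ a * v - 1 ∧ Cop (a * v) 2) := by
    rintro a ha1 ha2 v ⟨hv1, hv2⟩
    refine ⟨?_, cop_mul ha2 hv2⟩
    have e : a * v - 1 = a * (v - 1) + (a - 1) := by ring
    rw [e]
    exact dvd_add (dvd_mul_of_dvd_right hv1 _) ha1
  have hrp := V1_tm_rp (n := n) (t := t) hm.odd
  have hrp2 := hrp.mul hc hγδ (hQ h1 h2) (hQ hδ1 hδ2)
  have key := RpI.sum hrp2 hrp (fun v : OO n t => zt P v ^ k * etaM (2 * f) m (sp v * b) (r / 2)) ?_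
  · unfold etE
    rw [Finset.mul_sum]
    refine Eq.trans ?_ key
    refine Finset.sum_congr rfl fun α hα => ?_
    obtain ⟨h3, h4⟩ := CV_tm hm.odd hα
    have e1 : sp α * (sp γ * b) = sp (γ * α) * b := by
      rw [← CV_sp_mul]
      ring
    rw [e1, (hT0.2 n t P hP γ α h2 h4).2.2.1]
    ring
  · rintro v u ⟨hv1, hv2⟩ ⟨hu1, hu2⟩ hvu
    have h5 := CV_cast_dvd (Dvd.intro _ rfl : 2 ∣ 2 * f) hvu
    rw [CV_cast_two] at h5
    have hv3 := V1_cop2f hv1 hv2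
    have hu3 := V1_cop2f hu1 hu2
    change zt P v ^ k * etaM (2 * f) m (sp v * b) (r / 2) = zt P u ^ k * etaM (2 * f) m (sp u * b) (r / 2)
    rw [((hT0.2 n t P hP v u hv2 hu2).2.2.2.1).1 h5,
      ((hC6 n t f m _ hm (CV_fb_mul (CV_fb_sp hf0 hv3) hb)).1 _ (CV_fb_mul (CV_fb_sp hf0 hu3) hb)
      (V1_ray_mul (by omega) (V1_ray_congr (by omega) hv3 hu3 hvu) (V1_ray_refl (by omega) _))).2 (r / 2)]

/-- Integrality for all classes. -/
theorem V1_E_vp [Ine n t] (hT0 : S_T0) (hC6 : S_C6) (hC10 : S_C10) {P : Ideal ZZ} (hP : Ab2 P) {k f M : ℕ}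
    (hk : k = 1 ∨ k = 2) {m : Ideal (OO n t)} {R : Finset (Ideal (OO n t))} (hm : FM f m) (hR : FR f R)
    (hRC : IsRC f R) (hM : IsLv f m R M) {b : Ideal (OO n t)} (hb : FB f b) {r : ℚ}
    (hr : r.den.Coprime M) : VP P (c3 ^ k / 2 * etE P f k m b r) := by
  have hPp := hP.1.1
  have hf0 := hm.odd.pos
  obtain ⟨b', hb'R, h1⟩ := hRC.ex b hb.ne (CV_pri_dvd hb.cop (Dvd.intro_left _ rfl))
  have hb' := hR b' hb'R
  obtain ⟨γ, h2, h3, h4⟩ := V1_lift hf0 hb' hb (V1_ray_symm hf0 h1)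
  have hγ := CV_fb_sp hf0 (V1_cop2f h2 h3)
  have h5 := (hC10 n t f M m b' hm hb' (CV_lv hM hb'R) P k hP hk r hr).1
  have h6 := V1_E_mul (k := k) hT0 hC6 hP hm hb' h2 h3 r
  have h7 := (CV_up_of_pow hPp (by norm_num) (hT0.2 n t P hP γ γ h3 h3).1).pow k
  rw [V1_E_ray hC6 hm hb (CV_fb_mul hγ hb') h4 r]
  rw [← h6] at h5
  have e : c3 ^ k / 2 * etE P f k m (sp γ * b') r =
      (zt P γ ^ k)⁻¹ * (c3 ^ k / 2 * (zt P γ ^ k * etE P f k m (sp γ * b') r)) := by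
    have := h7.ne_zero
    field_simp
  rw [e]
  exact h7.inv.1.mul h5

/-! ## The framings -/

theorem V1_15 {v : OO n t} (h : (15 : OO n t) ∣ v - 1) : Cop v 15 := by
  apply CV_cop_of_dvd
  have e : (((15 : ℕ) : OO n t)) = 15 := by norm_num
  rwa [e]

theorem V1_fb15 [SqN n t] {f : ℕ} (h15 : 15 ∣ f) {b : Ideal (OO n t)} (hb : FB f b) : G15 b :=
  ⟨hb.ne, CV_pri_dvd hb.cop (dvd_trans h15 (Dvd.intro_left _ rfl))⟩

theorem V1_G15_mul [SqN n t] {a b : Ideal (OO n t)} (ha : G15 a) (hb : G15 b) : G15 (a * b) :=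
  ⟨mul_ne_zero ha.ne hb.ne, CV_pri_mul ha.cop hb.cop⟩

theorem V1_G15_sp [SqN n t] {v : OO n t} (h : (15 : OO n t) ∣ v - 1) : G15 (sp v) :=
  ⟨CV_sp_ne (CV_ne_of_cop (N := 15) (by norm_num) (V1_15 h)), CV_pri_sp (by norm_num) (V1_15 h)⟩

/-- `fr(γ b) = γ fr(b)`. -/
theorem V1_fr [Ine n t] (hB7 : S_B7) {b : Ideal (OO n t)} (hb : G15 b) {γ : OO n t}
    (h15 : (15 : OO n t) ∣ γ - 1) : fr (sp γ * b) = toC γ * fr b :=
  (((hB7 n t b hb.ne).2.2 hb.cop).1 γ (CV_ne_of_cop (N := 15) (by norm_num) (V1_15 h15))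
    (dvd_trans ⟨5, by norm_num⟩ h15) (Or.inl (dvd_trans ⟨3, by norm_num⟩ h15))).1

theorem V1_rO [Ine n t] (hR1 : S_R1) {b b' : Ideal (OO n t)} (hb : G15 b) (hb' : G15 b') :
    io (rO b b') = fr b' / fr b ∧ fr b ≠ 0 ∧ fr b' ≠ 0 := by
  obtain ⟨h1, h2⟩ := ((hR1.1 n t).1 b hb).2.2.2 b' hb'
  have h3 : io (rO b b') ≠ 0 := fun h => h2 (io_inj (by rw [h, map_zero]))
  rw [h1] at h3
  refine ⟨h1, ?_, ?_⟩
  · intro h
    rw [h, div_zero] at h3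
    exact h3 rfl
  · intro h
    rw [h, zero_div] at h3
    exact h3 rfl

/-- `rO c (γ b) = γ rO c b`. -/
theorem V1_rO_mul [Ine n t] (hR1 : S_R1) (hB7 : S_B7) {c b : Ideal (OO n t)} (hc : G15 c) (hb : G15 b)
    {γ : OO n t} (h15 : (15 : OO n t) ∣ γ - 1) : rO c (sp γ * b) = toO γ * rO c b := by
  apply io_inj
  rw [map_mul, io_toO, (V1_rO hR1 hc hb).1, (V1_rO hR1 hc (V1_G15_mul (V1_G15_sp h15) hb)).1,
    V1_fr hB7 hb h15]
  ring

/-- Ratio of the framings: it depends only on the class of `b` modulo `15`. -/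
theorem V1_rO_ratio [Ine n t] (hR1 : S_R1) (hB7 : S_B7) {a b b' : Ideal (OO n t)} (ha : G15 a) (hb : G15 b)
    (hb' : G15 b') {β β' : OO n t} (h15 : (15 : OO n t) ∣ β - 1) (h15' : (15 : OO n t) ∣ β' - 1)
    (h : sp β * b = sp β' * b') : rO b (a * b) = rO b' (a * b') := by
  have hβ : toC β ≠ 0 := toC_ne (CV_ne_of_cop (N := 15) (by norm_num) (V1_15 h15))
  have hβ' : toC β' ≠ 0 := toC_ne (CV_ne_of_cop (N := 15) (by norm_num) (V1_15 h15'))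
  obtain ⟨h1, h2, h3⟩ := V1_rO hR1 hb (V1_G15_mul ha hb)
  obtain ⟨h1', h2', h3'⟩ := V1_rO hR1 hb' (V1_G15_mul ha hb')
  apply io_inj
  rw [h1, h1']
  have e1 := V1_fr hB7 hb h15
  have e2 := V1_fr hB7 hb' h15'
  have e3 := V1_fr hB7 (V1_G15_mul ha hb) h15
  have e4 := V1_fr hB7 (V1_G15_mul ha hb') h15'
  have e5 : sp β * (a * b) = sp β' * (a * b') := by
    calc sp β * (a * b) = a * (sp β * b) := by ring
      _ = a * (sp β' * b') := by rw [h]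
      _ = sp β' * (a * b') := by ring
  rw [e5, e4] at e3
  rw [h, e2] at e1
  rw [div_eq_div_iff h2 h2']
  apply mul_left_cancel₀ hβ
  apply mul_left_cancel₀ hβ'
  linear_combination (-(toC β' * fr b')) * e3 + toC β' * fr (a * b') * e1

end Pool.Agent.DN
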