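import Pool.Agent.Lib.DN.CV.C11b

/-!
# Theorem DN, part CV, module C11c: `S_C11`, the end (author helper97)
-/

set_option autoImplicit false

open scoped Pointwise nonZeroDivisors

noncomputable section

namespace Pool.Agent.DN

open Pool.Agent.MuZ Pool.Agent.FW NumberField IsDedekindDomain
open Pool.Agent.DI (io ofC io_inj exists_io io_ofC ofC_io VP MP UP TP ex sqr sqr_sq kap)

variable {n t : ℕ}

/-- The second element of `tm`. -/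
def tm1 (n t f : ℕ) : OO n t := ⟨1 - f, f⟩

/-- The third element of `tm`. -/
def tm2 (n t f : ℕ) : OO n t := ⟨1, f⟩

theorem tm_mem (n t f : ℕ) : (1 : OO n t) ∈ tm n t f ∧ tm1 n t f ∈ tm n t f ∧ tm2 n t f ∈ tm n t f := by
  unfold tm tm1 tm2
  refine ⟨?_, ?_, ?_⟩ <;> simp

theorem tm_two {f : ℕ} (hf : Odd f) : ¬ (2 : OO n t) ∣ tm1 n t f - 1 ∧ ¬ (2 : OO n t) ∣ tm2 n t f - 1 ∧
    ¬ (2 : OO n t) ∣ tm1 n t f - tm2 n t f := by
  obtain ⟨j, hj⟩ := hf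
  refine ⟨?_, ?_, ?_⟩
  · rw [← CV_cast_two, nat_dvd_iff, QuadraticAlgebra.im_sub, im_one]
    rintro ⟨-, h⟩
    change ((2 : ℕ) : ℤ) ∣ (f : ℤ) - 0 at h
    omega
  · rw [← CV_cast_two, nat_dvd_iff, QuadraticAlgebra.im_sub, im_one]
    rintro ⟨-, h⟩
    change ((2 : ℕ) : ℤ) ∣ (f : ℤ) - 0 at h
    omega
  · rw [← CV_cast_two, nat_dvd_iff, QuadraticAlgebra.re_sub]
    rintro ⟨h, -⟩
    change ((2 : ℕ) : ℤ) ∣ (1 - (f : ℤ)) - 1 at h
    omega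

theorem tm_sum {f : ℕ} (hf : Odd f) {A : Type} [AddCommMonoid A] (G : OO n t → A) :
    ∑ α ∈ tm n t f, G α = G 1 + (G (tm1 n t f) + G (tm2 n t f)) := by
  obtain ⟨h1, h2, h3⟩ := tm_two (n := n) (t := t) hf
  have d1 : (1 : OO n t) ≠ tm1 n t f := by
    intro h
    rw [← h, sub_self] at h1
    exact h1 (dvd_zero _)
  have d2 : (1 : OO n t) ≠ tm2 n t f := by
    intro h
    rw [← h, sub_self] at h2
    exact h2 (dvd_zero _)
  have d3 : tm1 n t f ≠ tm2 n t f := by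
    intro h
    rw [← h, sub_self] at h3
    exact h3 (dvd_zero _)
  change ∑ α ∈ ({1, tm1 n t f, tm2 n t f} : Finset (OO n t)), G α = _
  rw [Finset.sum_insert, Finset.sum_pair d3]
  rw [Finset.mem_insert, Finset.mem_singleton]
  rintro (h | h)
  · exact d1 h
  · exact d2 h

/-- The roots of unity of the elements of `tm`. -/
theorem tm_zt [Ine n t] (hT0 : S_T0) {P : Ideal ZZ} (hP : Ab2 P) {f : ℕ} (hf : Odd f) :
    zt P (1 : OO n t) = 1 ∧ zt P (tm1 n t f) ^ 2 + zt P (tm1 n t f) + 1 = 0 ∧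
      zt P (tm2 n t f) = zt P (tm1 n t f) ^ 2 ∧ zt P (tm1 n t f) ^ 3 = 1 := by
  obtain ⟨m0, m1, m2⟩ := tm_mem n t f
  have c1 := (CV_tm hf m1).2
  have c2 := (CV_tm hf m2).2
  obtain ⟨h1, h2, h3⟩ := tm_two (n := n) (t := t) hf
  have k0 := hT0.2 n t P hP 1 1 (cop_one 2) (cop_one 2)
  have k1 := hT0.2 n t P hP (tm1 n t f) (tm2 n t f) c1 c2
  have k2 := hT0.2 n t P hP (tm2 n t f) (tm2 n t f) c2 c2
  have e1 := k1.2.2.2.2.1 h1
  have e2 := k2.2.2.2.2.1 h2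
  have e3 : zt P (tm1 n t f) ≠ zt P (tm2 n t f) := fun h => h3 (k1.2.2.2.1.2 h)
  refine ⟨?_, e1, ?_, k1.1⟩
  · have h4 := k0.2.2.1
    rw [mul_one] at h4
    have h5 : zt P (1 : OO n t) ≠ 0 := by
      intro h
      have h6 := k0.1
      rw [h] at h6
      norm_num at h6
    exact (mul_left_cancel₀ h5 (by rw [mul_one]; exact h4)).symm
  · have h4 : zt P (tm1 n t f) + zt P (tm2 n t f) + 1 = 0 := by
      apply mul_left_cancel₀ (sub_ne_zero.2 e3)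
      linear_combination e1 - e2
    linear_combination h4 - e1

/-- The numbers `κ(α b)` modulo `P`. -/
theorem kp_tm [Ine n t] (hB7 : S_B7) (hT0 : S_T0) (hT1 : S_T1) {P : Ideal ZZ} (hP : Ab2 P) {f : ℕ}
    (hf : Odd f) (h15 : 15 ∣ f) {b : Ideal (OO n t)} (hb : G15 b) (hu : UP P (kp b / c3)) {α : OO n t}
    (hα : α ∈ tm n t f) :
    a1O (sp α * b) = a1O b ∧ a3O (sp α * b) = a3O b ∧
      MP P (kp (sp α * b) / c3 - zt P α * (kp b / c3)) := by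
  have hPp := hP.1.1
  obtain ⟨hα1, hα2⟩ := CV_tm hf hα
  have hα0 : α ≠ 0 := CV_ne_of_cop (le_refl 2) hα2
  have h15α : (15 : OO n t) ∣ α - 1 := by
    have h5 := CV_cast_dvd h15 hα1
    have e4 : (((15 : ℕ) : OO n t)) = 15 := by norm_num
    rwa [e4] at h5
  obtain ⟨-, h1, h3, -⟩ := ((hB7 n t b hb.ne).2.2 hb.cop).1 α hα0 (dvd_trans ⟨5, by norm_num⟩ h15α)
    (Or.inl (dvd_trans ⟨3, by norm_num⟩ h15α))
  refine ⟨congrArg ofC h1, congrArg ofC h3, ?_⟩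
  obtain ⟨σ, hσ, hpsi⟩ := ((hT1 n t P hP).2 f 1 hf h15).2.1 α hα1 hα2
  have h4 := ((hT1 n t P hP).2 f 1 hf h15).2.2 σ hσ α (le_refl 1) hα1 hα2 hpsi
  have h5 : σ (kp b) = kp (sp α * b) := by
    unfold kp
    rw [map_add, map_mul, map_div₀, map_pow, hpsi.a1 b hb.ne hb.cop, hpsi.xx b hb.ne hb.cop (1 / 2), map_ofNat,
      map_ofNat]
    intro v _
    refine ⟨v * (f : OO n t), ?_⟩
    rw [toC_mul, toC_nat]
    push_cast
    ring
  obtain ⟨hc, hcm, hc0⟩ := CV_c3 hT0 hP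
  have hz := (hT0.2 n t P hP α α hα2 hα2).1
  have hzu := CV_up_of_pow hPp (by norm_num) hz
  have h6 := DI.MP.mul_left hzu.1 (CV_inert hPp hσ hu.1)
  have e : zt P α * (σ (kp b / c3) - kp b / c3) = kp (sp α * b) / c3 - zt P α * (kp b / c3) := by
    rw [map_div₀, h5, h4]
    have := hzu.ne_zero
    field_simp
  rwa [e] at h6

/-- **`S_C11`.** -/
theorem sC11 (hB1 : S_B1) (hB2 : S_B2) (hR1 : S_R1) (hR2 : S_R2) (hT0 : S_T0) (hT1 : S_T1) (hT2 : S_T2)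
    (hB7 : S_B7) (hB10 : S_B10) (hC4 : S_C4) (hC6 : S_C6) (hD9 : S_D9) (hE6 : S_E6)
    (hE10 : S_E10) : S_C11 := by
  intro n t _ P hP b hb h30
  have hPp := hP.1.1
  have hu := kp_up hB1 hB2 hR1 hR2 hT0 hP hb h30
  obtain ⟨hbG, hb2⟩ := CV_G15 hb h30
  refine ⟨hu, ?_⟩
  intro f M k m hm hbF hM hk r hr
  obtain ⟨hc, hcm, hc0⟩ := CV_c3 hT0 hP
  obtain ⟨m0, m1, m2⟩ := tm_mem n t f
  obtain ⟨z0, z1, z2, z3⟩ := tm_zt (n := n) (t := t) hT0 hP hm.odd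
  have c1 := CV_tm hm.odd m1
  have c2 := CV_tm hm.odd m2
  obtain ⟨p1, q1, r1⟩ := kp_tm hB7 hT0 hT1 hP hm.odd hm.dvd hbG hu m1
  obtain ⟨p2, q2, r2⟩ := kp_tm hB7 hT0 hT1 hP hm.odd hm.dvd hbG hu m2
  rw [z2] at r2
  -- the ideals
  have hG : ∀ α : OO n t, (f : OO n t) ∣ α - 1 ∧ Cop α 2 → G15 (sp α * b) ∧ PrI (sp α * b) 2 := by
    rintro α ⟨h1, h2⟩
    have h3 : Cop α 15 := CV_cop_of_dvd (CV_cast_dvd hm.dvd h1)
    exact ⟨⟨mul_ne_zero (CV_sp_ne (CV_ne_of_cop (le_refl 2) h2)) hb,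
      CV_pri_mul (CV_pri_sp (by norm_num) h3) hbG.cop⟩, CV_pri_mul (CV_pri_sp (by norm_num) h2) hb2⟩
  have g0 := kp_cubic hB1 hB2 hR1 hbG hb2
  have g1 := kp_cubic hB1 hB2 hR1 (hG _ c1).1 (hG _ c1).2
  have g2 := kp_cubic hB1 hB2 hR1 (hG _ c2).1 (hG _ c2).2
  rw [p1, q1] at g1
  rw [p2, q2] at g2
  obtain ⟨hμ, -⟩ := kp_coef hP (((hR2 n t).1 P hP).2 b hbG) ((((hR2 n t).1 P hP).1).2 b hbG).2.1
  obtain ⟨x1, x2, e0, e1, e2, s1, s2, s3, s4⟩ := C11_alg hP hT0 z1 g0 g1 g2 hμ hu r1 r2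
  -- the integral numbers
  have I : ∀ j : ℕ, 1 ≤ j → VP P (c3 ^ j / 2 * etE P f j m b r) := fun j hj =>
    (C10_all hT0 hT1 hT2 hB7 hB10 hC4 hC6 hD9 hE6 hE10 hm hbF hM hP hj hr).1
  obtain ⟨η0, hη0⟩ : ∃ x : Om, x = etaM (2 * f) m (sp 1 * b) (r / 2) := ⟨_, rfl⟩
  obtain ⟨η1, hη1⟩ : ∃ x : Om, x = etaM (2 * f) m (sp (tm1 n t f) * b) (r / 2) := ⟨_, rfl⟩
  obtain ⟨η2, hη2⟩ : ∃ x : Om, x = etaM (2 * f) m (sp (tm2 n t f) * b) (r / 2) := ⟨_, rfl⟩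
  have hE : ∀ j : ℕ, etE P f j m b r = η0 + (zt P (tm1 n t f) ^ j * η1 + (zt P (tm1 n t f) ^ 2) ^ j * η2) := by
    intro j
    unfold etE
    rw [tm_sum hm.odd, z0, z2, ← hη0, ← hη1, ← hη2, one_pow, one_mul]
  have hk1 : kp (sp (1 : OO n t) * b) = kp b := by
    rw [CV_sp_one, Ideal.top_mul]
  have hY : yE f k m b r = 1 / 2 * (kp b ^ k * η0 + (kp (sp (tm1 n t f) * b) ^ k * η1 +
      kp (sp (tm2 n t f) * b) ^ k * η2)) := by
    unfold yE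
    rw [tm_sum hm.odd, hk1, ← hη0, ← hη1, ← hη2]
  obtain ⟨ζ, hζ⟩ : ∃ x : Om, x = zt P (tm1 n t f) := ⟨_, rfl⟩
  rw [← hζ] at z1 z3 e1 e2 hE
  have I1 := I 1 (le_refl 1)
  have I2 := I 2 (by norm_num)
  have I3 := I 3 (by norm_num)
  have key : MP P (yE f k m b r - (kp b / c3) ^ k * (c3 ^ k / 2 * etE P f k m b r)) := by
    rcases hk with rfl | rfl
    · have e : yE f 1 m b r - (kp b / c3) ^ 1 * (c3 ^ 1 / 2 * etE P f 1 m b r) =
          (x1 / c3 - kp b / c3) * (c3 ^ 1 / 2 * etE P f 1 m b r) +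
            x2 / c3 ^ 2 * (c3 ^ 2 / 2 * etE P f 2 m b r) := by
        rw [hY, hE, hE, e1, e2]
        have e0' : kp b = x1 + x2 := e0
        rw [e0']
        field_simp
        linear_combination (-x2 * η2 * ζ) * z3
      rw [e]
      exact (DI.MP.mul_right s1 I1).add (DI.MP.mul_right s2 I2)
    · have e : yE f 2 m b r - (kp b / c3) ^ 2 * (c3 ^ 2 / 2 * etE P f 2 m b r) =
          ((x1 / c3 - kp b / c3) * (x1 / c3 + kp b / c3)) * (c3 ^ 2 / 2 * etE P f 2 m b r) +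
            x1 * x2 * (c3 ^ 3 / 2 * etE P f 3 m b r) +
            x2 ^ 2 / c3 * (c3 ^ 1 / 2 * etE P f 1 m b r) := by
        rw [hY, hE, hE, hE, e1, e2]
        have e0' : kp b = x1 + x2 := e0
        rw [e0', hT0.1]
        field_simp
        linear_combination (η1 * x2 ^ 2 * ζ - 2 * η2 * x1 * x2 * ζ ^ 3) * z3
      rw [e]
      have h4 : VP P (x1 / c3 + kp b / c3) := by
        have h5 := s1.vp.add hu.1
        rw [sub_add_cancel] at h5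
        exact h5.add hu.1
      exact ((DI.MP.mul_right (DI.MP.mul_right s1 h4) I2).add (DI.MP.mul_right s3 I3)).add
        (DI.MP.mul_right s4 I1)
  refine ⟨?_, key⟩
  have h5 : VP P ((kp b / c3) ^ k * (c3 ^ k / 2 * etE P f k m b r)) :=
    (hu.1.pow k).mul (I k (by omega))
  have h6 := key.vp.add h5
  rwa [sub_add_cancel] at h6

end Pool.Agent.DN
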