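import Pool.Agent.Lib.DN.CV.C10b

/-!
# Theorem DN, part CV, module C11: the numbers `y_b(r)` (author helper97)
-/

set_option autoImplicit false

open scoped Pointwise nonZeroDivisors

noncomputable section

namespace Pool.Agent.DN

open Pool.Agent.MuZ Pool.Agent.FW NumberField IsDedekindDomain
open Pool.Agent.DI (io ofC io_inj exists_io io_ofC ofC_io VP MP UP TP ex sqr sqr_sq kap)

variable {n t : ℕ}

/-! ## Inertia -/

/-- Inertia elements act trivially modulo `P`. -/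
theorem CV_inert {P : Ideal ZZ} (hP : P.IsPrime) {σ : Gal(Om/ℚ)} (hσ : σ ∈ P.inertia Gal(Om/ℚ)) {x : Om}
    (hx : VP P x) : MP P (σ x - x) := by
  obtain ⟨a, b, hb, h⟩ := hx
  have h1 : ∀ y : ZZ, σ • y - y ∈ P := fun y => hσ y
  have hb' : σ • b ∉ P := by
    intro h2
    have h3 := P.sub_mem h2 (h1 b)
    rw [sub_sub_cancel] at h3
    exact hb h3
  have h2 : σ x * ((σ • b : ZZ) : Om) = ((σ • a : ZZ) : Om) := by
    rw [DI.smul_coe, DI.smul_coe, ← map_mul, h]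
  refine ⟨σ • a * b - a * σ • b, b * σ • b, ?_, ?_, ?_⟩
  · have e : σ • a * b - a * σ • b = (σ • a - a) * b - a * (σ • b - b) := by ring
    rw [e]
    exact P.sub_mem (P.mul_mem_right _ (h1 a)) (P.mul_mem_left _ (h1 b))
  · intro h3
    rcases hP.mem_or_mem h3 with h4 | h4
    · exact hb h4
    · exact hb' h4
  · push_cast
    rw [← h, ← h2]
    ring

/-! ## The numbers `κ(b)` -/

/-- The cubic equation of `κ(b)`. -/
theorem kp_cubic [Ine n t] (hB1 : S_B1) (hB2 : S_B2) (hR1 : S_R1) {b : Ideal (OO n t)} (hb : G15 b)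
    (hb2 : PrI b 2) : kp b ^ 3 = (a1O b ^ 4 - 24 * a1O b * a3O b) / 12 * kp b +
      2 * ((-(a1O b ^ 6) + 36 * a1O b ^ 3 * a3O b - 216 * a3O b ^ 2) / 216) := by
  obtain ⟨h1, h2, h3, -⟩ := (hR1.1 n t).1 b hb
  obtain ⟨b1, b2, b3, b4, b5, b6⟩ := hB1 n t b hb.ne
  obtain ⟨c1, c2, c3, c4, c5, c6, c7, c8, c9⟩ := b6 hb.cop
  have hT : Tor n t (1 / 2 : ℂ) := ⟨1, 2, by norm_num, by rw [toC_one]; norm_num⟩
  have hn : (1 / 2 : ℂ) ∉ Lam b := (aL7 n t b hb.ne hb2).1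
  have h2T : 2 * (1 / 2 : ℂ) ∈ Lam b := by
    intro v _
    exact ⟨v, by norm_num⟩
  have e1 := (h3 (1 / 2) hT).1
  have e2 := ((hB2 n t b hb.ne (1 / 2) hn).1).1
  rw [(b5 (1 / 2) hn).2 h2T] at e2
  have e3 : io (kp b) = 2 * wpC b (1 / 2) / fr b ^ 2 := by
    unfold kp
    rw [map_add, map_mul, map_div₀, map_pow, map_ofNat, map_ofNat, e1, h1]
    unfold XC
    rw [c4]
    field_simp
    ring
  apply io_inj
  simp only [map_pow, map_add, map_mul, map_div₀, map_sub, map_neg, map_ofNat, e3, h1, h2]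
  rw [c8, c9] at e2
  field_simp
  field_simp at e2
  linear_combination (-1) * e2

theorem kp_three {P : Ideal ZZ} (hP : P.IsPrime) (h2 : MP P 2) : UP P (3 : Om) := by
  have h := CV_up_odd hP h2 (j := 3) (by decide)
  push_cast at h
  exact h

/-- The coefficients of the equation of `κ(b)/c3`. -/
theorem kp_coef {P : Ideal ZZ} (hP : Ab2 P) {a1 a3 : Om} (h1 : TP P 2 a1) (h3 : UP P a3) :
    MP P ((a1 ^ 4 - 24 * a1 * a3) / 12 / 2) ∧ UP P ((-(a1 ^ 6) + 36 * a1 ^ 3 * a3 - 216 * a3 ^ 2) / 216) := by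
  have hPp := hP.1.1
  obtain ⟨a, ha, rfl⟩ := h1
  have h3u := kp_three hPp hP.2
  have e1 : ((2 * a) ^ 4 - 24 * (2 * a) * a3) / 12 / 2 = 2 * ((a ^ 4 - 3 * a * a3) * 3⁻¹) := by
    field_simp
    ring
  have e2 : (-((2 * a) ^ 6) + 36 * (2 * a) ^ 3 * a3 - 216 * a3 ^ 2) / 216 =
      2 * (((2 : Om) * (9 * a ^ 3 * a3 - 2 * a ^ 6)) * (3⁻¹ ^ 3)) - a3 ^ 2 := by
    field_simp
    ring
  have h2v := CV_two_vp hPp
  have hk : ∀ k : ℕ, VP P (k : Om) := fun k => DI.VP.nat k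
  have h9 : VP P (9 : Om) := by exact_mod_cast hk 9
  rw [e1, e2]
  refine ⟨DI.MP.mul_right hP.2 (((ha.pow 4).sub ((h3u.1.mul ha).mul h3.1)).mul h3u.inv.1), ?_⟩
  refine DI.UP.congr (h3.pow 2).neg ?_
  have e3 : 2 * (((2 : Om) * (9 * a ^ 3 * a3 - 2 * a ^ 6)) * (3⁻¹ ^ 3)) - a3 ^ 2 - -(a3 ^ 2) =
      2 * (((2 : Om) * (9 * a ^ 3 * a3 - 2 * a ^ 6)) * (3⁻¹ ^ 3)) := by ring
  rw [e3]
  exact DI.MP.mul_right hP.2 ((h2v.mul ((((h9.mul (ha.pow 3)).mul h3.1)).sub (h2v.mul (ha.pow 6)))).mul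
    (h3u.inv.pow 3).1)

/-- A root of `x³ = μ x + ν`. -/
theorem CV_cub {P : Ideal ZZ} (hP : P.IsPrime) {x μ ν : Om} (hμ : MP P μ) (hν : UP P ν)
    (h : x ^ 3 = μ * x + ν) : UP P x := by
  have hx : VP P x := by
    by_contra hx
    obtain ⟨h0, h1⟩ := DI.VP.not_iff.1 hx
    have e : (1 : Om) = μ * (x⁻¹ * x⁻¹) + ν * (x⁻¹ * x⁻¹ * x⁻¹) := by
      field_simp
      linear_combination h
    refine DI.MP.one_not (P := P) ?_
    rw [e]
    exact (DI.MP.mul_right hμ (h1.vp.mul h1.vp)).add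
      (DI.MP.mul_left hν.1 (DI.MP.mul_left (h1.vp.mul h1.vp) h1))
  refine DI.UP.of_pow (n := 3) (by norm_num) (DI.UP.congr hν ?_)
  rw [h, add_sub_cancel_right]
  exact DI.MP.mul_right hμ hx

theorem CV_G15 [SqN n t] {b : Ideal (OO n t)} (hb : b ≠ ⊥) (h : PrI b 30) : G15 b ∧ PrI b 2 :=
  ⟨⟨hb, CV_pri_dvd h ⟨2, by norm_num⟩⟩, CV_pri_dvd h ⟨15, by norm_num⟩⟩

/-- The first half of `S_Kp`. -/
theorem kp_up [Ine n t] (hB1 : S_B1) (hB2 : S_B2) (hR1 : S_R1) (hR2 : S_R2) (hT0 : S_T0) {P : Ideal ZZ}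
    (hP : Ab2 P) {b : Ideal (OO n t)} (hb : b ≠ ⊥) (h30 : PrI b 30) : UP P (kp b / c3) := by
  have hPp := hP.1.1
  obtain ⟨hbG, hb2⟩ := CV_G15 hb h30
  have h1 := ((hR2 n t).1 P hP).2 b hbG
  have h3 := ((((hR2 n t).1 P hP).1).2 b hbG).2.1
  obtain ⟨hc, hcm, hc0⟩ := CV_c3 hT0 hP
  obtain ⟨hμ, hν⟩ := kp_coef hP h1 h3
  have hcub := kp_cubic hB1 hB2 hR1 hbG hb2
  refine CV_cub hPp (μ := (a1O b ^ 4 - 24 * a1O b * a3O b) / 12 / 2 * c3) (DI.MP.mul_right hμ hc) hν ?_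
  have h4 := hT0.1
  rw [div_pow, h4, hcub]
  field_simp

end Pool.Agent.DN
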