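import Pool.Agent.Lib.DN.CV.V1
import Pool.Agent.Lib.DN.CV.C11

/-!
# Theorem DN, part CV, module Kp: the numbers `κ(b)` and isogenies of odd degree, `S_Kp` (author helper97)
-/

set_option autoImplicit false

open scoped Pointwise nonZeroDivisors

noncomputable section

namespace Pool.Agent.DN

open Pool.Agent.MuZ Pool.Agent.FW NumberField IsDedekindDomain
open Pool.Agent.DI (io ofC io_inj exists_io io_ofC ofC_io VP MP UP TP ex sqr sqr_sq kap)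

variable {n t : ℕ}

theorem Kp_tor1 : Tor n t (1 / 2 : ℂ) := ⟨1, 2, by norm_num, by rw [toC_one]; norm_num⟩

theorem Kp_tor2 : Tor n t (wC n t / 2) := ⟨wI n t, 2, by norm_num, by rw [toC_wI]; norm_num⟩

/-- The three points of order two. -/
theorem kp_pts [Ine n t] {b : Ideal (OO n t)} (hb : b ≠ ⊥) (hb2 : PrI b 2) :
    (1 / 2 : ℂ) ∉ Lam b ∧ wC n t / 2 ∉ Lam b ∧ (1 / 2 + wC n t / 2) ∉ Lam b ∧
    2 * (1 / 2 : ℂ) ∈ Lam b ∧ 2 * (wC n t / 2) ∈ Lam b ∧ 2 * (1 / 2 + wC n t / 2) ∈ Lam b ∧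
    (1 / 2 - wC n t / 2) ∉ Lam b := by
  obtain ⟨h1, h2, h3, -⟩ := aL7 n t b hb hb2
  obtain ⟨h0, -⟩ := aL2 n t
  obtain ⟨k1, k2, k3, k4⟩ := h0 b
  have hO : ∀ v : OO n t, toC v ∈ Lam b := fun v u _ => ⟨u * v, by rw [toC_mul]⟩
  have e3 : (1 / 2 : ℂ) + wC n t / 2 = (1 + wC n t) / 2 := by ring
  have o1 : 2 * (1 / 2 : ℂ) ∈ Lam b := by
    have := hO 1
    rw [toC_one] at this
    rwa [mul_one_div_cancel (by norm_num : (2 : ℂ) ≠ 0)]
  have o2 : 2 * (wC n t / 2) ∈ Lam b := by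
    have := hO (wI n t)
    rw [toC_wI] at this
    rwa [mul_div_cancel₀ _ (by norm_num : (2 : ℂ) ≠ 0)]
  refine ⟨h1, h2, by rwa [e3], o1, o2, ?_, ?_⟩
  · rw [mul_add]
    exact k2 _ _ o1 o2
  · intro h4
    apply h3
    rw [← e3]
    have e : (1 / 2 : ℂ) + wC n t / 2 = (1 / 2 - wC n t / 2) + 2 * (wC n t / 2) := by ring
    rw [e]
    exact k2 _ _ h4 o2

/-- `3 κ(b)` as a sum of differences of values at the points of order two. -/
theorem kp_half [Ine n t] (hB1 : S_B1) (hB4 : S_B4) (hR1 : S_R1) {b : Ideal (OO n t)} (hb : G15 b)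
    (hb2 : PrI b 2) : 3 * kp b = 2 * ((xO b (1 / 2) - xO b (wC n t / 2)) +
      (xO b (1 / 2) - xO b (1 / 2 + wC n t / 2))) := by
  obtain ⟨h1, h2, h3, -⟩ := (hR1.1 n t).1 b hb
  obtain ⟨b1, b2, b3, b4, b5, b6⟩ := hB1 n t b hb.ne
  obtain ⟨c1, c2, c3, c4, -⟩ := b6 hb.cop
  obtain ⟨p1, p2, p3, q1, q2, q3, q4⟩ := kp_pts hb.ne hb2
  have e1 := (h3 (1 / 2) Kp_tor1).1
  have e2 := (h3 (wC n t / 2) Kp_tor2).1
  have e3 := (h3 (1 / 2 + wC n t / 2) (tor_add Kp_tor1 Kp_tor2)).1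
  have e4 := (hB4 n t b hb.ne (1 / 2) (wC n t / 2) q1 p1 q2 p2 q4).1
  apply io_inj
  unfold kp
  simp only [map_mul, map_add, map_sub, map_div₀, map_pow, map_ofNat, e1, e2, e3, h1]
  unfold XC
  rw [c4]
  generalize wpC b (1 / 2 + wC n t / 2) = E3 at e4 ⊢
  generalize wpC b (wC n t / 2) = E2 at e4 ⊢
  generalize wpC b (1 / 2) = E1 at e4 ⊢
  field_simp
  linear_combination 144 * e4

/-- The sum formula for the coordinates `X`. -/
theorem kp_sum [Ine n t] (hB1 : S_B1) (hB9 : S_B9) (hR1 : S_R1) {a b : Ideal (OO n t)}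
    (ha : G15 a) (hb : G15 b) {R : Finset ℂ} (hR : IsSys a b R) {z z' : ℂ} (hz : z ∉ Lam (a * b))
    (hz' : z' ∉ Lam (a * b)) (hzt : Tor n t z) (hzt' : Tor n t z') :
    (xO (a * b) z - xO (a * b) z') * rO b (a * b) ^ 2 = ∑ u ∈ R, (xO b (z + u) - xO b (z' + u)) := by
  have hab := V1_G15_mul ha hb
  obtain ⟨h1, h2, h3, h4⟩ := (hR1.1 n t).1 b hb
  obtain ⟨k1, k2, k3, k4⟩ := (hR1.1 n t).1 (a * b) hab
  obtain ⟨c1, -⟩ := (hB1 n t b hb.ne).2.2.2.2.2 hb.cop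
  obtain ⟨d1, -⟩ := (hB1 n t (a * b) hab.ne).2.2.2.2.2 hab.cop
  have e1 := (hB9 n t a b ha.ne hb.ne R hR).1 z z' hz hz'
  have hu : ∀ u ∈ R, Tor n t u := fun u hu => tor_lam hab.ne (hR.mem u hu)
  apply io_inj
  rw [map_mul, map_sub, map_pow, map_sum, (k3 z hzt).1, (k3 z' hzt').1, (h4 _ hab).1]
  have e2 : ∀ u ∈ R, io (xO b (z + u) - xO b (z' + u)) =
      (wpC b (z + u) - wpC b (z' + u)) / fr b ^ 2 := by
    intro u hu'
    rw [map_sub, (h3 _ (tor_add hzt (hu u hu'))).1, (h3 _ (tor_add hzt' (hu u hu'))).1]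
    unfold XC
    ring
  rw [Finset.sum_congr rfl e2, ← Finset.sum_div, ← e1]
  unfold XC
  field_simp
  ring

/-- The points of the kernel of an isogeny of odd degree are not in the kernel of reduction. -/
theorem kp_ik [Ine n t] (hD2 : S_D2) {P : Ideal ZZ} (hP : Ab2 P) {a b : Ideal (OO n t)} (ha : G15 a)
    (hb : G15 b) (ha2 : PrI a 2) {u : ℂ} (hu : u ∈ Lam (a * b)) (hu' : u ∉ Lam b) : ¬ IK P b u := by
  have hPp := hP.1.1
  have hab := V1_G15_mul ha hb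
  refine (hD2 n t P hP b hb).2.2.2.2.1 u (tor_lam hab.ne hu) fun hQ => hu' ?_
  have h1 : ¬ MP P (toO ((NI a : ℕ) : OO n t)) := by
    rw [toO_nat]
    exact (CV_up_oddN hPp hP.2 (CV_NI_odd ha2)).2
  have h2 := hQ ((NI a : ℕ) : OO n t) 1 h1 (by
    rw [mul_one]
    exact ((aL2 n t).2.1 a b u).1 hu _ (CV_NI_mem a))
  rwa [toC_one, one_mul] at h2

/-- The difference for one pair of points of order two. -/
theorem kp_pair [Ine n t] (hB1 : S_B1) (hB9 : S_B9) (hR1 : S_R1) (hD1 : S_D1) (hD2 : S_D2) (hR2 : S_R2)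
    {P : Ideal ZZ} (hP : Ab2 P) {a b : Ideal (OO n t)} (ha : G15 a) (hb : G15 b) (ha2 : PrI a 2)
    {T T' : ℂ} (hT : T ∉ Lam (a * b)) (hT' : T' ∉ Lam (a * b)) (h2T : 2 * T ∈ Lam b)
    (h2T' : 2 * T' ∈ Lam b) (tT : Tor n t T) (tT' : Tor n t T') :
    MP P ((xO (a * b) T - xO (a * b) T') * rO b (a * b) ^ 2 - (xO b T - xO b T')) := by
  classical
  have hPp := hP.1.1
  have hab := V1_G15_mul ha hb
  have hGQ := ((hR2 n t).1 P hP).1
  obtain ⟨-, -, R, hR, -⟩ := aL3 n t a b ha.ne hb.ne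
  obtain ⟨h0, -⟩ := aL2 n t
  obtain ⟨k1, k2, k3, -⟩ := h0 b
  obtain ⟨h1, h2, h3, h4⟩ := (hR1.1 n t).1 b hb
  rw [kp_sum hB1 hB9 hR1 ha hb hR hT hT' tT tT']
  obtain ⟨u0, hu0, hu0'⟩ := hR.ex 0 ((h0 (a * b)).1)
  have hu0b : u0 ∈ Lam b := by
    have := k3 _ hu0'
    rwa [zero_sub, neg_neg] at this
  have hper : ∀ {z : ℂ}, xO b (z + u0) = xO b z := by
    intro z
    unfold xO XC
    rw [((hB1 n t b hb.ne).1 z u0 hu0b).1]
  rw [← Finset.add_sum_erase R _ hu0, hper, hper, add_sub_cancel_left]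
  refine DI.MP.sum _ _ fun u hu => ?_
  obtain ⟨hne, huR⟩ := Finset.mem_erase.1 hu
  have hub : u ∉ Lam b := by
    intro h5
    apply hne
    refine hR.uni u huR u0 hu0 ?_
    rw [sub_eq_add_neg]
    exact k2 _ _ h5 (k3 _ hu0b)
  have huL := hR.mem u huR
  have hik := kp_ik hD2 hP ha hb ha2 huL hub
  have hut := tor_lam hab.ne huL
  have hTk : ∀ {z : ℂ}, 2 * z ∈ Lam b → IK P b z := by
    intro z hz
    refine (hD2 n t P hP b hb).1 z 1 ?_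
    rwa [pow_one]
  have d1 := (hD1 n t P hGQ b hb).2.2.2.2.2.1 u T hut hik (hTk h2T)
  have d2 := (hD1 n t P hGQ b hb).2.2.2.2.2.1 u T' hut hik (hTk h2T')
  have d3 := d1.sub d2
  rw [add_comm u T, add_comm u T'] at d3
  rwa [sub_sub_sub_cancel_right] at d3

/-- **`S_Kp`.** -/
theorem sKp (hB1 : S_B1) (hB2 : S_B2) (hB4 : S_B4) (hB9 : S_B9) (hR1 : S_R1) (hR2 : S_R2) (hT0 : S_T0)
    (hD1 : S_D1) (hD2 : S_D2) : S_Kp := by
  intro n t _ P hP b hb h30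
  have hPp := hP.1.1
  have hup := kp_up hB1 hB2 hR1 hR2 hT0 hP hb h30
  refine ⟨hup, fun a ha ha30 => ?_⟩
  obtain ⟨hbG, hb2⟩ := CV_G15 hb h30
  obtain ⟨haG, ha2⟩ := CV_G15 ha ha30
  have habG := V1_G15_mul haG hbG
  have hab2 : PrI (a * b) 2 := CV_pri_mul ha2 hb2
  obtain ⟨-, -, -, q1, q2, q3, -⟩ := kp_pts hb hb2
  obtain ⟨p1, p2, p3, -⟩ := kp_pts habG.ne hab2
  have t3 := tor_add (Kp_tor1 (n := n) (t := t)) Kp_tor2
  have m1 := kp_pair hB1 hB9 hR1 hD1 hD2 hR2 hP haG hbG ha2 p1 p2 q1 q2 Kp_tor1 Kp_tor2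
  have m2 := kp_pair hB1 hB9 hR1 hD1 hD2 hR2 hP haG hbG ha2 p1 p3 q1 q3 Kp_tor1 t3
  have m3 := m1.add m2
  have e1 := kp_half hB1 hB4 hR1 hbG hb2
  have e2 := kp_half hB1 hB4 hR1 habG hab2
  obtain ⟨hc, hcm, hc0⟩ := CV_c3 hT0 hP
  have h3u := kp_three hPp hP.2
  have hc3 := hT0.1
  -- the unit `κ(b)/c3`
  have hk0 : kp b ≠ 0 := by
    intro h0
    apply hup.ne_zero
    rw [h0, zero_div]
  have e3 : kp (a * b) * rO b (a * b) ^ 2 / kp b - 1 =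
      ((xO (a * b) (1 / 2) - xO (a * b) (wC n t / 2)) * rO b (a * b) ^ 2 -
        (xO b (1 / 2) - xO b (wC n t / 2)) +
      ((xO (a * b) (1 / 2) - xO (a * b) (1 / 2 + wC n t / 2)) * rO b (a * b) ^ 2 -
        (xO b (1 / 2) - xO b (1 / 2 + wC n t / 2)))) * (c3 ^ 2 * (3⁻¹ * (kp b / c3)⁻¹)) := by
    have e4 : c3 ^ 2 * (3⁻¹ * (kp b / c3)⁻¹) = (2 : Om) / (3 * kp b) := by
      rw [← hc3]
      field_simp
    rw [e4]
    have h30' : (3 : Om) ≠ 0 := h3u.ne_zero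
    clear m1 m2 m3
    generalize xO (a * b) (1 / 2 + wC n t / 2) = X1 at e1 e2 ⊢
    generalize xO b (1 / 2 + wC n t / 2) = X2 at e1 e2 ⊢
    field_simp
    linear_combination rO b (a * b) ^ 2 * e2 - e1
  rw [e3]
  exact DI.MP.mul_right m3 ((hc.pow 2).mul (h3u.inv.1.mul hup.inv.1))

end Pool.Agent.DN
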