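import Pool.Agent.Lib.DN.CV.Bas

/-!
# Theorem DN, part CV, module Lw: levels exist, `S_Lw` (author helper97)
-/

set_option autoImplicit false

open scoped Pointwise nonZeroDivisors

noncomputable section

namespace Pool.Agent.DN

open Pool.Agent.MuZ Pool.Agent.FW NumberField IsDedekindDomain

variable {n t : ℕ}

theorem Lw_prod [SqN n t] {R : Finset (Ideal (OO n t))} (h : ∀ b ∈ R, PrI b 2) : Odd (∏ b ∈ R, NI b) := by
  classical
  induction R using Finset.induction_on with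
  | empty => rw [Finset.prod_empty]; exact odd_one
  | insert a S ha ih =>
    rw [Finset.prod_insert ha]
    exact (CV_NI_odd (h a (Finset.mem_insert_self a S))).mul
      (ih fun b hb => h b (Finset.mem_insert_of_mem hb))

theorem Lw_Dk [h : Ine n t] : Odd (Dk n t) := by
  have h1 := h.one
  have h2 := h.odd
  subst h1
  unfold Dk
  rw [Nat.odd_iff]
  omega

theorem Lw_odd [Ine n t] {f : ℕ} {m : Ideal (OO n t)} {R : Finset (Ideal (OO n t))} (hm : FM f m)
    (hR : FR f R) : Odd (lev f m R) := by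
  unfold lev
  refine (Lw_Dk.mul hm.odd.pow).mul (Odd.pow ((CV_NI_odd hm.two).mul (Lw_prod fun b hb => ?_)))
  exact CV_pri_dvd (hR b hb).cop (Dvd.intro _ rfl)

/-- **`S_Lw`.** -/
theorem sLw : S_Lw := by
  intro n t _ f m R hm hR
  have hf0 := hm.odd.pos
  obtain ⟨R2, hR2⟩ := (aO7 n t (2 * f) (by omega)).2.2.2.2.2.2.2.2.2.2
  have hFR2 : FR f R2 := fun b hb => ⟨(hR2.mem b hb).1, (hR2.mem b hb).2⟩
  have ho : Odd (lev f m R * lev f m R2) := (Lw_odd hm hR).mul (Lw_odd hm hFR2)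
  have hf15 : 15 ≤ f := Nat.le_of_dvd hf0 hm.dvd
  have hfd : f ∣ lev f m R * lev f m R2 := by
    unfold lev
    exact Dvd.dvd.mul_right (Dvd.dvd.mul_right (Dvd.dvd.mul_left (dvd_pow_self f (by norm_num)) _) _) _
  have h3 : 3 ≤ lev f m R * lev f m R2 := le_trans (by omega) (Nat.le_of_dvd ho.pos hfd)
  exact ⟨lev f m R * lev f m R2, ⟨ho, h3, Dvd.intro _ rfl⟩, R2, hFR2, hR2, ho, h3, Dvd.intro_left _ rfl⟩

end Pool.Agent.DN
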