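import Pool.Agent.Lib.DN.CV.V3

/-!
# Theorem DN, part CV, module V4: the transformation of the symbol under `Γ_0(M)`, `S_V` (author helper97)
-/

set_option autoImplicit false

open scoped Pointwise nonZeroDivisors

noncomputable section

namespace Pool.Agent.DN

open Pool.Agent.MuZ Pool.Agent.FW NumberField IsDedekindDomain
open Pool.Agent.DI (io ofC io_inj exists_io io_ofC ofC_io VP MP UP TP ex sqr sqr_sq kap)

variable {n t : ℕ}

variable [Ine n t] {P : Ideal ZZ} {f M k : ℕ} {m : Ideal (OO n t)} {R : Finset (Ideal (OO n t))}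
  {χ : Ideal (OO n t) → Om}

/-! ## The translation and the hidden symmetry -/

/-- The translation changes the sign. -/
theorem VH.xw_T (h : VH P f M k m R χ) (r : ℚ) : xw P f k m R χ (r - 1) = -xw P f k m R χ r := by
  have hf0 := h.hm.odd.pos
  unfold xw
  rw [← Finset.sum_neg_distrib]
  refine Finset.sum_congr rfl fun b hb => ?_
  have hE : etE P f k m b (r - 1) = -etE P f k m b r := by
    unfold etE
    rw [← Finset.sum_neg_distrib]
    refine Finset.sum_congr rfl fun α hα => ?_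
    obtain ⟨h1, h2⟩ := CV_tm h.hm.odd hα
    have hA := CV_fb_sp hf0 (V1_cop2f h1 h2)
    have h3 := ((h.C6 n t f m _ h.hm (CV_fb_mul hA (h.hR b hb))).2.1 ((r - 1) / 2)).2
    have e : (r - 1) / 2 + 1 / 2 = r / 2 := by ring
    rw [e] at h3
    rw [h3]
    ring
  unfold Fb
  rw [hE]
  ring

/-- The hidden symmetry. -/
theorem VH.xw_U (h : VH P f M k m R χ) {s : ℚ} (hs : s.den.Coprime M) :
    (M : ℚ) * s + 1 ≠ 0 ∧
      xw P f k m R χ (s / (M * s + 1)) = -xw P f k m R χ s + 2 * xw P f k m R χ 0 := by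
  have hC9 : ∀ b ∈ R, (M : ℚ) * s + 1 ≠ 0 ∧
      etE P f k m b (s / (M * s + 1)) = -etE P f k m b s + 2 * etE P f k m b 0 := fun b hb =>
    h.C9 n t f M m b h.hm (h.hR b hb) (CV_lv h.hM.lv hb) P k h.hP h.hk s hs
  refine ⟨?_, ?_⟩
  · obtain ⟨b, hb, -⟩ := h.hRC.ex ⊤ (CV_fb_top (n := n) (t := t) f).ne (CV_top _)
    exact (hC9 b hb).1
  · unfold xw
    rw [← Finset.sum_neg_distrib, Finset.mul_sum, ← Finset.sum_add_distrib]
    refine Finset.sum_congr rfl fun b hb => ?_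
    unfold Fb
    rw [(hC9 b hb).2]
    ring

theorem VH.xw_vp (h : VH P f M k m R χ) {r : ℚ} (hr : r.den.Coprime M) : VP P (xw P f k m R χ r) := by
  have hPp := h.hP.1.1
  unfold xw
  exact DI.VP.sum _ _ fun b hb => h.vp hr (h.hR b hb)

/-- The odd numbers congruent to `d` modulo `M`. -/
theorem VH.d_cop (h : VH P f M k m R χ) {a b c d : ℤ} (hG : G0 M a b c d) {d' : ℤ} (hd' : Odd d')
    (hdd : (M : ℤ) ∣ d' - d) : UP P (χ (sp (d' : OO n t))) := by
  have hf0 := h.hm.odd.pos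
  have hM2 : 2 ≤ M := le_trans (by norm_num) h.hM.lv.three
  obtain ⟨hfM, -, -, -⟩ := CV_lvd h.hM.lv
  obtain ⟨hdM, -, -, -⟩ := CV_mob (r := 0) hM2 hG (by simp)
  have h1 : IsCoprime d' (M : ℤ) := by
    obtain ⟨s, hs⟩ := hdd
    have e : d' = d + M * s := by linarith
    rw [e]
    exact (IsCoprime.add_mul_left_left_iff).2 hdM
  have h2 : IsCoprime d' (f : ℤ) := h1.of_isCoprime_of_dvd_right (by exact_mod_cast hfM)
  have h3 : IsCoprime d' (2 : ℤ) := by
    obtain ⟨x, hx⟩ := hd'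
    exact ⟨1, -x, by rw [hx]; ring⟩
  have h4 : Cop (d' : OO n t) (2 * f) := by
    apply CV_cop_int
    push_cast
    exact h3.mul_right h2
  exact V2_up h.hχ h.hP.1.1 (CV_fb_sp hf0 h4)

theorem VH.two_mul (h : VH P f M k m R χ) {x : Om} (hx : VP P x) : MP P (2 * x) := by
  have hPp := h.hP.1.1
  exact DI.MP.mul_right h.hP.2 hx

/-- The step `T`. -/
theorem VH.stepT (h : VH P f M k m R χ) {a b c d : ℤ} (hG : G0 M a b c d)
    (hV : VT P f M k m R χ a (a + b) c (c + d)) : VT P f M k m R χ a b c d := by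
  intro d' hd' hdd r hr
  have hPp := h.hP.1.1
  have hM2 : 2 ≤ M := le_trans (by norm_num) h.hM.lv.three
  have hu := h.d_cop hG hd' hdd
  have hdd' : (M : ℤ) ∣ d' - (c + d) := by
    have e : d' - (c + d) = (d' - d) - c := by ring
    rw [e]
    exact dvd_sub hdd hG.2
  have hr1 : (r - 1).den.Coprime M := by
    have h1 : (r.num : ℚ) / (r.den : ℚ) = r := Rat.num_div_den r
    have hden : (r.den : ℚ) ≠ 0 := by exact_mod_cast r.den_ne_zero
    refine CV_den_coprime (p := r.num - r.den) (q := r.den) (Nat.isCoprime_iff_coprime.2 hr) hM2 ?_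
    push_cast
    rw [sub_div, h1, div_self hden]
  have h01 : ((0 : ℚ) - 1).den.Coprime M := by
    have e : ((0 : ℚ) - 1) = ((-1 : ℤ) : ℚ) := by norm_num
    rw [e, Rat.den_intCast]
    exact Nat.coprime_one_left M
  have e1 : ∀ s : ℚ, ((a : ℚ) * (s - 1) + ((a + b : ℤ) : ℚ)) / (c * (s - 1) + ((c + d : ℤ) : ℚ)) =
      (a * s + b) / (c * s + d) := by
    intro s
    push_cast
    congr 1 <;> ring
  have v1 := hV d' hd' hdd' (r - 1) hr1
  have v2 := hV d' hd' hdd' (0 - 1) h01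
  rw [e1, h.xw_T] at v1 v2
  rw [mul_zero, mul_zero, zero_add, zero_add] at v2
  have v3 := v1.sub v2
  have hz : (0 : ℚ).den.Coprime M := by simp
  have v4 := h.two_mul (hu.1.mul ((h.xw_vp hr).sub (h.xw_vp hz)))
  have v5 := v3.sub v4
  refine Eq.mp (congrArg _ ?_) v5
  ring

/-- The step `U`. -/
theorem VH.stepU (h : VH P f M k m R χ) {a b c d : ℤ} (hG : G0 M a b c d)
    (hV : VT P f M k m R χ (a + b * M) b (c + d * M) d) : VT P f M k m R χ a b c d := by
  intro d' hd' hdd r hr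
  have hPp := h.hP.1.1
  have hM2 : 2 ≤ M := le_trans (by norm_num) h.hM.lv.three
  have hu := h.d_cop hG hd' hdd
  have hz : (0 : ℚ).den.Coprime M := by simp
  -- the point `s = r/(1 - M r)`
  have hGU : G0 M 1 0 (-(M : ℤ)) 1 := ⟨by ring, ⟨-1, by ring⟩⟩
  obtain ⟨-, -, hne, hs⟩ := CV_mob hM2 hGU hr
  push_cast at hne hs
  rw [one_mul, add_zero] at hs
  have hne' : 1 - (M : ℚ) * r ≠ 0 := by
    intro h0
    apply hne
    linear_combination h0
  have es : r / (-(M : ℚ) * r + 1) = r / (1 - M * r) := by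
    congr 1
    ring
  rw [es] at hs
  obtain ⟨k1, k2⟩ := h.xw_U hs
  have e1 : (r / (1 - M * r)) / (M * (r / (1 - M * r)) + 1) = r := by
    have e2 : (M : ℚ) * (r / (1 - M * r)) + 1 = 1 / (1 - M * r) := by
      field_simp
      ring
    rw [e2, div_div_eq_mul_div, div_one, div_mul_cancel₀ _ hne']
  rw [e1] at k2
  have v1 := hV d' hd' hdd (r / (1 - M * r)) hs
  obtain ⟨-, -, hne2, -⟩ := CV_mob hM2 hG hr
  have e3 : (((a + b * M : ℤ) : ℚ) * (r / (1 - M * r)) + b) / (((c + d * M : ℤ) : ℚ) * (r / (1 - M * r)) + d) =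
      (a * r + b) / (c * r + d) := by
    have e4 : ((a + b * M : ℤ) : ℚ) * (r / (1 - M * r)) + b = (a * r + b) / (1 - M * r) := by
      push_cast
      field_simp
      ring
    have e5 : ((c + d * M : ℤ) : ℚ) * (r / (1 - M * r)) + d = (c * r + d) / (1 - M * r) := by
      push_cast
      field_simp
      ring
    rw [e4, e5, div_div_div_cancel_right₀ hne']
  rw [e3] at v1
  have k3 : xw P f k m R χ (r / (1 - M * r)) = -xw P f k m R χ r + 2 * xw P f k m R χ 0 := by
    rw [k2]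
    ring
  rw [k3] at v1
  have v4 := h.two_mul (hu.1.mul ((h.xw_vp hr).sub (h.xw_vp hz)))
  have v5 := v1.sub v4
  refine Eq.mp (congrArg _ ?_) v5
  ring

/-- The transformation under `Γ_0(M)`. -/
theorem VH.all (h : VH P f M k m R χ) {a b c d : ℤ} (hG : G0 M a b c d) : VT P f M k m R χ a b c d := by
  have hMo := h.hM.lv.odd
  -- `c` even
  have s1 : ∀ {a b c d : ℤ}, G0 M a b c d → Even c → VT P f M k m R χ a b c d := by
    intro a b c d hG hc
    rcases Int.even_or_odd b with hb | hb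
    · exact h.even hG hb hc
    · have hao : Odd a := by
        obtain ⟨c1, hc1⟩ := hc
        have e : a * d = 2 * (b * c1) + 1 := by rw [← hG.1, hc1]; ring
        have had : Odd (a * d) := ⟨b * c1, e⟩
        exact (Int.odd_mul.1 had).1
      refine h.stepT hG (h.even ?_ (hao.add_odd hb) hc)
      refine ⟨?_, hG.2⟩
      rw [← hG.1]
      ring
  -- `d` odd
  have s2 : ∀ {a b c d : ℤ}, G0 M a b c d → Odd c → Odd d → VT P f M k m R χ a b c d := by
    intro a b c d hG hc hd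
    refine h.stepU hG (s1 ?_ ?_)
    · refine ⟨?_, dvd_add hG.2 (Dvd.intro_left _ rfl)⟩
      rw [← hG.1]
      ring
    · have hMo' : Odd (M : ℤ) := by exact_mod_cast hMo
      exact hc.add_odd (hd.mul hMo')
  rcases Int.even_or_odd c with hc | hc
  · exact s1 hG hc
  · rcases Int.even_or_odd d with hd | hd
    · refine h.stepT hG (s2 ?_ hc (hc.add_even hd))
      refine ⟨?_, hG.2⟩
      rw [← hG.1]
      ring
    · exact s2 hG hc hd

/-- **`S_V`.** -/
theorem sV (hT0 : S_T0) (hC1 : S_C1) (hC6 : S_C6) (hC9 : S_C9) (hC10 : S_C10) (hB7 : S_B7) (hR1 : S_R1)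
    (hD2 : S_D2) : S_V := by
  intro n t _ f M k m R hm hR hRC hM χ hχ P hP hk hTy
  have hPp := hP.1.1
  have h : VH P f M k m R χ := ⟨hP, hk, hm, hR, hRC, hM, hχ, hTy, hT0, hC1, hC6, hC9, hC10, hB7, hR1, hD2⟩
  have hM2 : 2 ≤ M := le_trans (by norm_num) hM.lv.three
  have hneg : ∀ {r : ℚ}, r.den.Coprime M → (-r).den.Coprime M := by
    intro r hr
    rwa [Rat.neg_den]
  refine ⟨fun r hr => ?_, fun a b c d d' hG hd' hdd r hr => ?_⟩
  · rw [xs_eq]
    exact (h.xw_vp hr).add (h.xw_vp (hneg hr))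
  obtain ⟨-, -, h1, h2⟩ := CV_mob hM2 hG hr
  refine ⟨h1, h2, h.d_cop hG hd' hdd, ?_⟩
  have hG' : G0 M a (-b) (-c) d := ⟨by rw [← hG.1]; ring, (dvd_neg).2 hG.2⟩
  have v1 := h.all hG d' hd' hdd r hr
  have v2 := h.all hG' d' hd' hdd (-r) (hneg hr)
  have e1 : ((a : ℚ) * -r + ((-b : ℤ) : ℚ)) / (((-c : ℤ) : ℚ) * -r + d) = -((a * r + b) / (c * r + d)) := by
    push_cast
    rw [← neg_div]
    congr 1 <;> ring
  have e2 : (((-b : ℤ) : ℚ)) / (d : ℚ) = -(b / d) := by
    push_cast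
    rw [neg_div]
  rw [e1, e2] at v2
  have v3 := v1.add v2
  rw [xs_eq, xs_eq, xs_eq, xs_eq]
  refine Eq.mp (congrArg _ ?_) v3
  rw [neg_zero]
  ring

end Pool.Agent.DN
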