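import Pool.Agent.Lib.DN.C.All
import Pool.Agent.Lib.DN.V.Vq
import Pool.Agent.Lib.DN.CV.C11c
import Pool.Agent.Lib.DN.CV.V4
import Pool.Agent.Lib.DN.CV.Kp
import Pool.Agent.Lib.DN.CV.Lw

/-!
# Theorem DN, part CV: assembly of `C8`, `C10`, `C11`, `Kp`, `Lw`, `V` (author helper97)

`aVq` (module `V/Vq`) and `aLw` have no hypotheses.
-/

set_option autoImplicit false

noncomputable section

namespace Pool.Agent.DN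

theorem aLw : S_Lw := sLw

theorem aC8 (hR1 : S_R1) (hE1 : S_E1) (hE6 : S_E6) (hE10 : S_E10) : S_C8 :=
  sC8 (aC4 hR1) (aC6 hR1) hE1 hE6 hE10

theorem aC10 (hR1 : S_R1) (hT0 : S_T0) (hT1 : S_T1) (hT2 : S_T2) (hD9 : S_D9) (hE6 : S_E6)
    (hE10 : S_E10) : S_C10 :=
  sC10 hT0 hT1 hT2 aB7 aB10 (aC4 hR1) (aC6 hR1) hD9 hE6 hE10

theorem aKp (hR1 : S_R1) (hR2 : S_R2) (hT0 : S_T0) (hD1 : S_D1) (hD2 : S_D2) : S_Kp :=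
  sKp aB1 aB2 aB4 aB9 hR1 hR2 hT0 hD1 hD2

theorem aC11 (hR1 : S_R1) (hR2 : S_R2) (hT0 : S_T0) (hT1 : S_T1) (hT2 : S_T2) (hD9 : S_D9)
    (hE6 : S_E6) (hE10 : S_E10) : S_C11 :=
  sC11 aB1 aB2 hR1 hR2 hT0 hT1 hT2 aB7 aB10 (aC4 hR1) (aC6 hR1) hD9 hE6 hE10

theorem aV (hR1 : S_R1) (hT0 : S_T0) (hT1 : S_T1) (hT2 : S_T2) (hC9 : S_C9) (hD2 : S_D2) (hD9 : S_D9)
    (hE6 : S_E6) (hE10 : S_E10) : S_V :=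
  sV hT0 (aC1 hR1) (aC6 hR1) hC9 (aC10 hR1 hT0 hT1 hT2 hD9 hE6 hE10) aB7 hR1 hD2

end Pool.Agent.DN
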