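import Pool.Agent.Lib.DN.CV.C10

/-!
# Theorem DN, part CV, module C10b: `S_C10` (author helper97)

The statement is proved for all exponents `k ≥ 1` (`k = 3` is used in `C11`).
-/

set_option autoImplicit false

open scoped Pointwise nonZeroDivisors

noncomputable section

namespace Pool.Agent.DN

open Pool.Agent.MuZ Pool.Agent.FW NumberField IsDedekindDomain
open Pool.Agent.DI (io ofC io_inj exists_io io_ofC ofC_io VP MP UP TP ex sqr sqr_sq kap)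

variable {n t : ℕ}

/-- The sum `E_b(r)` as a sum over the first system. -/
theorem C10_E [Ine n t] (hT0 : S_T0) (hC4 : S_C4) (hC6 : S_C6) (hB7 : S_B7) {P : Ideal ZZ}
    (hP : Ab2 P) (k : ℕ) {f : ℕ} {m b : Ideal (OO n t)} (hm : FM f m) (hb : FB f b) {c : ℤ}
    {n' N q : ℕ} (h : Md f (NI m) n' N q) (hqm : q.Coprime (NI m)) (hbq : PrI b q)
    {lf : OO n t → OO n t} (h1 : ∀ α, ((2 * f : ℕ) : OO n t) ∣ lf α - α)
    (h2 : ∀ α, ((n' * NI m : ℕ) : OO n t) ∣ lf α - 1) {r : ℚ} (hr : r / 2 = c / q) :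
    c3 ^ k * etE P f k m b r = (1 / q : Om) *
      ∑ p ∈ tm n t f ×ˢ (Finset.range q ×ˢ Finset.range q),
        ph P k m b c q (f * (n' * 2 ^ N)) (lf p.1 * ga (2 * f) p.2.1 p.2.2) := by
  obtain ⟨hf0, hf15, hm15, hm2f, hmo, hmc, hm0⟩ := CV_fm hm
  obtain ⟨hbG, hb2, hbf, hmb⟩ := CV_fb hm hb
  obtain ⟨hc, hrp⟩ := h.rp1 h1 h2
  have hq : 0 < q := by
    have h3 := h.q0
    have h4 : 0 < n' * 2 ^ N := Nat.mul_pos h.n1.pos (by positivity)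
    omega
  have hF : f * (n' * 2 ^ N) = 2 * f * q := by rw [← h.q0]; ring
  unfold etE
  rw [Finset.mul_sum, Finset.sum_product, Finset.mul_sum]
  refine Finset.sum_congr rfl fun α hα => ?_
  obtain ⟨hα1, hα2⟩ := CV_tm h.f1 hα
  have hαc : Cop α (2 * f) := CV_cop_mul.2 ⟨hα2, CV_cop_of_dvd hα1⟩
  have hlc := hc α hα
  have hl2f : Cop (lf α) (2 * f) := cop_dvd hlc (Dvd.intro _ rfl)
  have hl2 : Cop (lf α) 2 := cop_dvd hl2f (Dvd.intro _ rfl)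
  have hlq : Cop (lf α) q := cop_dvd hlc (Dvd.intro_left _ rfl)
  have hα0 : α ≠ 0 := CV_ne_of_cop (by omega) hα2
  have hl0 : lf α ≠ 0 := CV_ne_of_cop (by omega) hl2
  have h2f0 : 0 < 2 * f := by omega
  have h7 := aO7 n t (2 * f) h2f0
  have hray : Ray (2 * f) (sp α) (sp (lf α)) := by
    refine (h7.2.2.2.2.2.2.2.1 α (lf α) hα0 hl0 hαc hl2f).2 ⟨1, Nm_one, ?_⟩
    rw [one_mul]
    have h3 := dvd_neg.2 (h1 α)
    rwa [neg_sub] at h3
  have hray' : Ray (2 * f) (sp α * b) (sp (lf α) * b) :=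
    h7.2.2.2.1 _ _ b b hray (h7.1 b)
  have hF1 : FB f (sp α * b) := CV_fb_mul (CV_fb_sp hf0 hαc) hb
  have hF2 : FB f (sp (lf α) * b) := CV_fb_mul (CV_fb_sp hf0 hl2f) hb
  have hlbq : PrI (sp (lf α) * b) q := CV_pri_mul (CV_pri_sp hq hlq) hbq
  rw [((hC6 n t f m _ hm hF1).1 _ hF2 hray').2 (r / 2), hr, (hC4 n t f m _ hm hF2 c q hq hqm).2.2 hlbq,
    Finset.sum_product]
  have e0 : ∀ X : Om, c3 ^ k * (zt P α ^ k * (1 / (q : Om) * X)) = 1 / (q : Om) * (c3 ^ k * zt P α ^ k * X) := by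
    intro X
    ring
  rw [e0, Finset.mul_sum]
  congr 1
  refine Finset.sum_congr rfl fun x _ => ?_
  rw [Finset.mul_sum]
  refine Finset.sum_congr rfl fun y _ => ?_
  have e1 : (⟨1 + 2 * f * x, 2 * f * y⟩ : OO n t) = ga (2 * f) x y := by
    apply ext'
    · change 1 + 2 * (f : ℤ) * x = 1 + ((2 * f : ℕ) : ℤ) * x
      push_cast
      ring
    · change 2 * (f : ℤ) * y = ((2 * f : ℕ) : ℤ) * y
      push_cast
      ring
  have hga := ga_sub_one (n := n) (t := t) (2 * f) x y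
  have hga2 : Cop (ga (2 * f) x y : OO n t) 2 := CV_cop_of_dvd (CV_cast_dvd (Dvd.intro _ rfl) hga)
  have e2 : zt P (lf α * ga (2 * f) x y) = zt P α := by
    refine Eq.symm (((hT0.2 n t P hP α (lf α * ga (2 * f) x y) hα2 (cop_mul hl2 hga2)).2.2.2.1).1 ?_)
    have h3 := CV_cast_dvd (M := 2) (Dvd.intro _ rfl) (h1 α)
    have h4 := CV_cast_dvd (M := 2) (Dvd.intro _ rfl) hga
    rw [CV_cast_two] at h3 h4
    have e3 : α - lf α * ga (2 * f) x y = -(lf α * (ga (2 * f) x y - 1) + (lf α - α)) := by ring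
    rw [e3]
    exact dvd_neg.2 (dvd_add (dvd_mul_of_dvd_right h4 _) h3)
  have h15 : (15 : OO n t) ∣ lf α - 1 := by
    have h3 := CV_cast_dvd (Dvd.intro_left _ rfl : f ∣ 2 * f) (h1 α)
    have h4 := dvd_add h3 hα1
    rw [sub_add_sub_cancel] at h4
    have h5 := CV_cast_dvd hm.dvd h4
    have e4 : (((15 : ℕ) : OO n t)) = 15 := by norm_num
    rwa [e4] at h5
  have e5 : gO m (sp (lf α) * b) (toC (ga (2 * f) x y : OO n t) / ((2 * f * q : ℕ) : ℂ)) =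
      gO m b (toC (lf α * ga (2 * f) x y) / ((f * (n' * 2 ^ N) : ℕ) : ℂ)) := by
    rw [gO_hom hB7 hm.ne hbG hl0 h15, toC_mul, hF]
    congr 1
    ring
  have e6 : zet q ^ (c * (NI m * NI (sp (lf α) * b) * Nm (ga (2 * f) x y : OO n t))) =
      zet q ^ (c * (NI m * NI b * Nm (lf α * ga (2 * f) x y))) := by
    congr 1
    rw [CV_NI_mul, Nm_mul]
    push_cast
    rw [CV_NI_sp]
    ring
  unfold ph
  rw [e1, e2, e5, e6]

/-- The sum over one orbit. -/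
theorem C10_orb [Ine n t] (hT0 : S_T0) (hT1 : S_T1) (hT2 : S_T2) (hB7 : S_B7)
    (hE6 : S_E6) (hE10 : S_E10) (hD9 : S_D9) {P : Ideal ZZ} (hP : Ab2 P) {k : ℕ} (hk : 1 ≤ k) {f : ℕ}
    {m b : Ideal (OO n t)} (hm : FM f m) (hb : FB f b) (c : ℤ) {n' N q : ℕ} (h : Md f (NI m) n' N q)
    (hq : 0 < q) (hqF : q ∣ n' * 2 ^ N) {A : Finset (OO n t)} (hA : IsG (f * n' * NI m) N A) {v : OO n t}
    (hv : (f : OO n t) ∣ v - 1) (hv2 : Cop v 2) :
    TP P (2 ^ N) (∑ α ∈ A, ph P k m b c q (f * (n' * 2 ^ N)) (α * v)) := by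
  have hoF : Odd (f * n' * NI m) := (h.f1.mul h.n1).mul h.m1
  have h15 : 15 ∣ f * n' * NI m := dvd_trans hm.dvd ⟨n' * NI m, by ring⟩
  have hex : ∀ α : OO n t, ∃ σ : Gal(Om/ℚ), α ∈ A →
      σ ∈ P.inertia Gal(Om/ℚ) ∧ Psi σ (f * n' * NI m * 2 ^ N) (sp α) := by
    intro α
    by_cases hα : α ∈ A
    · obtain ⟨h1, h2⟩ := hA.mem α hα
      obtain ⟨σ, h3, h4⟩ := ((hT1 n t P hP).2 _ N hoF h15).2.1 α h1 h2
      exact ⟨σ, fun _ => ⟨h3, h4⟩⟩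
    · exact ⟨1, fun h1 => absurd h1 hα⟩
  choose s hs using hex
  have he : 0 < n' * 2 ^ N := Nat.mul_pos h.n1.pos (by positivity)
  have hF1 : f * (n' * 2 ^ N) ∣ f * n' * NI m * 2 ^ N := ⟨NI m, by ring⟩
  have hF2 : q ∣ f * n' * NI m * 2 ^ N := dvd_trans hqF ⟨f * NI m, by ring⟩
  have hF3 : NI m ∣ f * n' * NI m * 2 ^ N := ⟨f * n' * 2 ^ N, by ring⟩
  have hF4 : f ∣ f * n' * NI m := ⟨n' * NI m, by ring⟩
  have e1 : ∑ α ∈ A, ph P k m b c q (f * (n' * 2 ^ N)) (α * v) =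
      ∑ α ∈ A, s α (ph P k m b c q (f * (n' * 2 ^ N)) v) := by
    refine Finset.sum_congr rfl fun α hα => ?_
    obtain ⟨h1, h2⟩ := hA.mem α hα
    obtain ⟨h3, h4⟩ := hs α hα
    exact (ph_gal hT0 hT1 hB7 hE6 hE10 hP k hm hb c hq he hoF hF4 h.N1 hF2 hF3 hF1 h3 h1 h2 h4 hv hv2).symm
  rw [e1]
  refine hT2 n t P hP (f * n' * NI m) N A s hoF h15 h.N1 hA (fun α hα => hs α hα) _ ?_ ?_
  · intro σ hσ hpsi
    rw [← CV_sp_one] at hpsi
    have h5 := ph_gal hT0 hT1 hB7 hE6 hE10 hP k hm hb c hq he hoF hF4 h.N1 hF2 hF3 hF1 hσ (α := 1)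
      (by rw [sub_self]; exact dvd_zero _) (cop_one 2) hpsi hv hv2
    rwa [one_mul] at h5
  · exact ph_vp hT0 hD9 hP hk hm hb c hq h.n1 hv hv2

/-- **`S_C10`**, for all `k ≥ 1`. -/
theorem C10_all (hT0 : S_T0) (hT1 : S_T1) (hT2 : S_T2) (hB7 : S_B7) (hB10 : S_B10) (hC4 : S_C4)
    (hC6 : S_C6) (hD9 : S_D9) (hE6 : S_E6) (hE10 : S_E10) [Ine n t] {f M : ℕ} {m b : Ideal (OO n t)}
    (hm : FM f m) (hb : FB f b) (hM : IsLv f m {b} M) {P : Ideal ZZ} {k : ℕ} (hP : Ab2 P) (hk : 1 ≤ k)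
    {r : ℚ} (hr : r.den.Coprime M) :
    VP P (c3 ^ k / 2 * etE P f k m b r) ∧
      (∀ σ ∈ P.inertia Gal(Om/ℚ), σ (c3 ^ k / 2 * etE P f k m b r) = c3 ^ k / 2 * etE P f k m b r) := by
  have hPp := hP.1.1
  obtain ⟨hf0, hf15, hm15, hm2f, hmo, hmc, hm0⟩ := CV_fm hm
  obtain ⟨hbG, hb2, hbf, hmb⟩ := CV_fb hm hb
  obtain ⟨hfM, hmM, -, hbM⟩ := CV_lvd hM
  have hbM' := hbM b (Finset.mem_singleton_self b)
  obtain ⟨s, n', hn', hden⟩ := Nat.exists_eq_two_pow_mul_odd r.den_nz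
  have hn'0 : 0 < n' := hn'.pos
  have hden0 : 0 < r.den := r.den_pos
  have hn'M : n'.Coprime M := Nat.Coprime.coprime_dvd_left ⟨2 ^ s, by rw [hden]; ring⟩ hr
  have hn'f : n'.Coprime f := Nat.Coprime.coprime_dvd_right hfM hn'M
  have hmf : (NI m).Coprime f := Nat.Coprime.coprime_dvd_right (Dvd.intro_left _ rfl) hmc
  set q : ℕ := 2 * r.den with hq
  have hq0 : 0 < q := by omega
  have hq2 : 2 * q = n' * 2 ^ (s + 2) := by
    rw [hq, hden]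
    ring
  have h : Md f (NI m) n' (s + 2) q := ⟨hm.odd, by omega, hmo, hn', hn'f, hmf, by omega, hq2⟩
  have hqF : q ∣ n' * 2 ^ (s + 2) := ⟨2, by rw [← hq2]; ring⟩
  have hqm : q.Coprime (NI m) := by
    refine Nat.Coprime.mul_left ?_ (Nat.Coprime.coprime_dvd_right hmM hr)
    exact Nat.coprime_two_left.2 hmo
  have hbq : PrI b q := by
    rw [CV_NI_cop hq0]
    refine Nat.Coprime.mul_right ?_ (Nat.Coprime.coprime_dvd_right hbM' hr).symm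
    exact (CV_NI_cop (by norm_num)).1 hb2
  have hcop : (2 * f).Coprime (n' * NI m) := by
    refine Nat.Coprime.mul_left ?_ (Nat.Coprime.mul_right hn'f.symm hmf.symm)
    exact Nat.coprime_two_left.2 (hn'.mul hmo)
  have hex : ∀ α : OO n t, ∃ u : OO n t, ((2 * f : ℕ) : OO n t) ∣ u - α ∧
      ((n' * NI m : ℕ) : OO n t) ∣ u - 1 := by
    intro α
    obtain ⟨u, -, h1, h2⟩ := (aO11 n t).2.2.2.2.2 (2 * f) (n' * NI m) α 1 (by omega)
      (Nat.mul_pos hn'0 hm0) hcop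
    exact ⟨u, h1, h2⟩
  choose lf hl1 hl2 using hex
  have hrc : r / 2 = (r.num : ℚ) / (q : ℕ) := by
    have h1 : (r.num : ℚ) / (r.den : ℚ) = r := Rat.num_div_den r
    rw [hq]
    push_cast
    rw [mul_comm, ← div_div, h1]
  have hE := C10_E hT0 hC4 hC6 hB7 hP k hm hb h hqm hbq hl1 hl2 hrc
  obtain ⟨A, hA⟩ := exists_IsG (n := n) (t := t) (F0 := f * n' * NI m) (N := s + 2) (by positivity)
    (by omega)
  obtain ⟨-, hrp1⟩ := h.rp1 hl1 hl2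
  have hrp2 := h.rp2 hA
  have hFpos : 0 < f * (n' * 2 ^ (s + 2)) := by positivity
  have h2F : 2 ∣ f * (n' * 2 ^ (s + 2)) := ⟨f * (n' * 2 ^ (s + 1)), by ring⟩
  have hqF' : q ∣ f * (n' * 2 ^ (s + 2)) := Dvd.dvd.mul_left hqF _
  have hper : ∀ v u : OO n t, ((f : OO n t) ∣ v - 1 ∧ Cop v 2) → ((f : OO n t) ∣ u - 1 ∧ Cop u 2) →
      ((f * (n' * 2 ^ (s + 2)) : ℕ) : OO n t) ∣ v - u →
      ph P k m b r.num q (f * (n' * 2 ^ (s + 2))) v = ph P k m b r.num q (f * (n' * 2 ^ (s + 2))) u :=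
    fun v u hv hu hvu => ph_per hT0 hB10 hP k hm.ne hb.ne r.num hFpos hq0 hqF' h2F hv.2 hu.2 hvu
  have hqO : ((q : ℕ) : Om) ≠ 0 := by exact_mod_cast hq0.ne'
  constructor
  · -- integrality
    have e1 := RpI.sum hrp1 hrp2 (ph P k m b r.num q (f * (n' * 2 ^ (s + 2)))) hper
    rw [e1, Finset.sum_product_right] at hE
    have h3 : TP P (2 ^ (s + 2)) (∑ y ∈ Finset.range n' ×ˢ Finset.range n', ∑ x ∈ A,
        ph P k m b r.num q (f * (n' * 2 ^ (s + 2))) (x * ga (f * 2 ^ (s + 2)) y.1 y.2)) := by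
      refine CV_tp_sum hPp _ _ fun y _ => ?_
      have hg := ga_sub_one (n := n) (t := t) (f * 2 ^ (s + 2)) y.1 y.2
      refine C10_orb hT0 hT1 hT2 hB7 hE6 hE10 hD9 hP hk hm hb r.num h hq0 hqF hA
        (CV_cast_dvd (Dvd.intro _ rfl) hg) (CV_cop_of_dvd (CV_cast_dvd ?_ hg))
      exact ⟨f * 2 ^ (s + 1), by ring⟩
    obtain ⟨Y, hY, hY'⟩ := h3
    have e2 : c3 ^ k / 2 * etE P f k m b r = (n' : Om)⁻¹ * Y := by
      have e3 : c3 ^ k / 2 * etE P f k m b r = 1 / 2 * (c3 ^ k * etE P f k m b r) := by ring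
      rw [e3, hE]
      change 1 / 2 * (1 / (q : Om) * (∑ y ∈ Finset.range n' ×ˢ Finset.range n', ∑ x ∈ A,
        ph P k m b r.num q (f * (n' * 2 ^ (s + 2))) (x * ga (f * 2 ^ (s + 2)) y.1 y.2))) = _
      rw [hY']
      have e4 : (2 : Om) * (q : Om) = (n' : Om) * 2 ^ (s + 2) := by exact_mod_cast hq2
      have h4 : (n' : Om) ≠ 0 := by exact_mod_cast hn'0.ne'
      field_simp
      linear_combination (-Y) * e4
    rw [e2]
    exact (CV_up_oddN hPp hP.2 hn').inv.1.mul hY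
  · -- inertia
    intro σ hσ
    have hoF : Odd (f * n' * NI m) := (h.f1.mul h.n1).mul h.m1
    have h15 : 15 ∣ f * n' * NI m := dvd_trans hm.dvd ⟨n' * NI m, by ring⟩
    obtain ⟨α, hα1, hα2, hpsi⟩ := ((hT1 n t P hP).2 (f * n' * NI m) (s + 2) hoF h15).1 σ hσ
    have hα3 : (f : OO n t) ∣ α - 1 := CV_cast_dvd ⟨n' * NI m, by ring⟩ hα1
    have hαF : Cop α (f * (n' * 2 ^ (s + 2))) := by
      refine CV_cop_mul.2 ⟨CV_cop_of_dvd hα3, CV_cop_mul.2 ⟨CV_cop_of_dvd (CV_cast_dvd ⟨f * NI m, by ring⟩ hα1), ?_⟩⟩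
      unfold Cop at hα2 ⊢
      push_cast
      exact hα2.pow_right
    obtain ⟨β, hβ, hαβ⟩ := cop_inv hαF
    have hβ2 : Cop β 2 := cop_dvd hβ h2F
    have hβ1 : (f : OO n t) ∣ β - 1 := by
      have h3 := CV_cast_dvd (Dvd.intro _ rfl : f ∣ f * (n' * 2 ^ (s + 2))) hαβ
      have e : β - 1 = (α * β - 1) - β * (α - 1) := by ring
      rw [e]
      exact dvd_sub h3 (dvd_mul_of_dvd_right hα3 _)
    have hQ : ∀ {a : OO n t}, (f : OO n t) ∣ a - 1 → Cop a 2 → ∀ v : OO n t,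
        ((f : OO n t) ∣ v - 1 ∧ Cop v 2) → ((f : OO n t) ∣ a * v - 1 ∧ Cop (a * v) 2) := by
      rintro a ha1 ha2 v ⟨hv1, hv2⟩
      refine ⟨?_, cop_mul ha2 hv2⟩
      have e : a * v - 1 = a * (v - 1) + (a - 1) := by ring
      rw [e]
      exact dvd_add (dvd_mul_of_dvd_right hv1 _) ha1
    have hrp3 := hrp1.mul hαF hαβ (hQ hα3 hα2) (hQ hβ1 hβ2)
    have e1 := RpI.sum hrp3 hrp1 (ph P k m b r.num q (f * (n' * 2 ^ (s + 2)))) hper
    have e2 : σ (c3 ^ k * etE P f k m b r) = c3 ^ k * etE P f k m b r := by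
      rw [hE, map_mul, map_div₀, map_one, map_natCast, map_sum, ← e1]
      congr 1
      refine Finset.sum_congr rfl fun p hp => ?_
      obtain ⟨hv1, hv2⟩ := hrp1.mem p hp
      exact ph_gal hT0 hT1 hB7 hE6 hE10 hP k hm hb r.num hq0 (by positivity) hoF
        ⟨n' * NI m, by ring⟩ h.N1 (dvd_trans hqF ⟨f * NI m, by ring⟩) ⟨f * n' * 2 ^ (s + 2), by ring⟩
        ⟨NI m, by ring⟩ hσ hα1 hα2 hpsi hv1 hv2
    have e3 : c3 ^ k / 2 * etE P f k m b r = 1 / 2 * (c3 ^ k * etE P f k m b r) := by ring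
    rw [e3, map_mul, e2, map_div₀, map_one, map_ofNat]

theorem sC10 (hT0 : S_T0) (hT1 : S_T1) (hT2 : S_T2) (hB7 : S_B7) (hB10 : S_B10) (hC4 : S_C4)
    (hC6 : S_C6) (hD9 : S_D9) (hE6 : S_E6) (hE10 : S_E10) : S_C10 := by
  intro n t _ f M m b hm hb hM P k hP hk r hr
  exact C10_all hT0 hT1 hT2 hB7 hB10 hC4 hC6 hD9 hE6 hE10 hm hb hM hP (by omega) hr

end Pool.Agent.DN
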