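import Pool.Agent.Lib.DN.CV.C11

/-!
# Theorem DN, part CV, module C11b: `S_C11` (author helper97)
-/

set_option autoImplicit false

open scoped Pointwise nonZeroDivisors

noncomputable section

namespace Pool.Agent.DN

open Pool.Agent.MuZ Pool.Agent.FW NumberField IsDedekindDomain
open Pool.Agent.DI (io ofC io_inj exists_io io_ofC ofC_io VP MP UP TP ex sqr sqr_sq kap)

variable {n t : ℕ}

/-- The algebra of the three numbers `κ(α b)`. -/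
theorem C11_alg {P : Ideal ZZ} (hP : Ab2 P) (hT0 : S_T0) {ζ y0 y1 y2 s p' : Om} (hζ : ζ ^ 2 + ζ + 1 = 0)
    (h0 : y0 ^ 3 = s * y0 + p') (h1 : y1 ^ 3 = s * y1 + p') (h2 : y2 ^ 3 = s * y2 + p')
    (hs : MP P (s / 2)) (hu : UP P (y0 / c3)) (k1 : MP P (y1 / c3 - ζ * (y0 / c3)))
    (k2 : MP P (y2 / c3 - ζ ^ 2 * (y0 / c3))) :
    ∃ x1 x2 : Om, y0 = x1 + x2 ∧ y1 = ζ * x1 + ζ ^ 2 * x2 ∧ y2 = ζ ^ 2 * x1 + ζ * x2 ∧
      MP P (x1 / c3 - y0 / c3) ∧ MP P (x2 / c3 ^ 2) ∧ MP P (x1 * x2) ∧ MP P (x2 ^ 2 / c3) := by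
  have hPp := hP.1.1
  obtain ⟨hc, hcm, hc0⟩ := CV_c3 hT0 hP
  have hc3 := hT0.1
  have h3u := kp_three hPp hP.2
  have h30 : (3 : Om) ≠ 0 := h3u.ne_zero
  have hζ3 : ζ ^ 3 = 1 := by linear_combination (ζ - 1) * hζ
  have hζu : UP P ζ := CV_up_of_pow hPp (by norm_num) hζ3
  have hζv := hζu.1
  have hζ1 : UP P (ζ - 1) := by
    refine DI.UP.of_pow (n := 2) (by norm_num) ?_
    have e : (ζ - 1) ^ 2 = -(3 * ζ) := by linear_combination hζ
    rw [e]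
    exact (h3u.mul hζu).neg
  -- the three numbers are different
  have d01 : y0 ≠ y1 := by
    intro h
    rw [← h] at k1
    have e : y0 / c3 - ζ * (y0 / c3) = -((ζ - 1) * (y0 / c3)) := by ring
    rw [e] at k1
    exact (hζ1.mul hu).neg.2 k1
  have d02 : y0 ≠ y2 := by
    intro h
    rw [← h] at k2
    have e : y0 / c3 - ζ ^ 2 * (y0 / c3) = (ζ - 1) * (y0 / c3) * ζ ^ 2 := by
      linear_combination (-(y0 / c3)) * hζ3
    rw [e] at k2
    exact ((hζ1.mul hu).mul (hζu.pow 2)).2 k2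
  have d12 : y1 ≠ y2 := by
    intro h
    rw [← h] at k2
    have k3 := k1.sub k2
    have e : y1 / c3 - ζ * (y0 / c3) - (y1 / c3 - ζ ^ 2 * (y0 / c3)) = (ζ - 1) * (y0 / c3) * ζ := by ring
    rw [e] at k3
    exact ((hζ1.mul hu).mul hζu).2 k3
  have f1 : y0 ^ 2 + y0 * y1 + y1 ^ 2 = s := by
    apply mul_left_cancel₀ (sub_ne_zero.2 d01)
    linear_combination h0 - h1
  have f2 : y0 ^ 2 + y0 * y2 + y2 ^ 2 = s := by
    apply mul_left_cancel₀ (sub_ne_zero.2 d02)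
    linear_combination h0 - h2
  have f3 : y0 + y1 + y2 = 0 := by
    apply mul_left_cancel₀ (sub_ne_zero.2 d12)
    linear_combination f1 - f2
  have e0 : y2 = -y0 - y1 := by linear_combination f3
  obtain ⟨x1, hx1⟩ : ∃ x1 : Om, x1 = (y0 * (1 - ζ) - y1 * (1 + 2 * ζ)) / 3 := ⟨_, rfl⟩
  obtain ⟨x2, hx2⟩ : ∃ x2 : Om, x2 = (y0 * (2 + ζ) + y1 * (1 + 2 * ζ)) / 3 := ⟨_, rfl⟩
  have g1 : x1 / c3 - y0 / c3 = -((1 + 2 * ζ) * 3⁻¹) * (y1 / c3 - ζ * (y0 / c3)) := by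
    rw [hx1]
    field_simp
    linear_combination (-2 * y0) * hζ
  have h2v := CV_two_vp hPp
  have g2 : MP P (x1 / c3 - y0 / c3) := by
    rw [g1]
    exact DI.MP.mul_left (((DI.VP.one.add (h2v.mul hζv)).mul h3u.inv.1).neg) k1
  have g3 : x1 * x2 = s / 3 := by
    rw [hx1, hx2]
    field_simp
    linear_combination 3 * f1 - (y0 ^ 2 + 4 * y0 * y1 + 4 * y1 ^ 2) * hζ
  have g4 : UP P (x1 / c3) := DI.UP.congr hu g2
  have g5 : x1 ≠ 0 := by
    intro h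
    rw [h, zero_div] at g4
    exact g4.ne_zero rfl
  have g6 : x2 / c3 ^ 2 = s / 2 * (3⁻¹ * (x1 / c3)⁻¹) := by
    have h3 : x2 = s / (3 * x1) := by
      rw [eq_div_iff (mul_ne_zero h30 g5)]
      linear_combination 3 * g3
    rw [h3]
    field_simp
    linear_combination (-s) * hc3

  have g7 : MP P (x2 / c3 ^ 2) := by
    rw [g6]
    exact DI.MP.mul_right hs (h3u.inv.1.mul g4.inv.1)
  refine ⟨x1, x2, ?_, ?_, ?_, g2, g7, ?_, ?_⟩
  · rw [hx1, hx2]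
    ring
  · rw [hx1, hx2]
    linear_combination (-(y0 * ζ + y1 * (2 * ζ - 3)) / 3) * hζ
  · rw [hx1, hx2, e0]
    linear_combination (-(y0 * (3 - ζ) + y1 * (3 - 2 * ζ)) / 3) * hζ
  · have e : x1 * x2 = s / 2 * (2 * 3⁻¹) := by
      rw [g3]
      ring
    rw [e]
    exact DI.MP.mul_right hs (h2v.mul h3u.inv.1)
  · have e : x2 ^ 2 / c3 = 2 * ((x2 / c3 ^ 2) * (x2 / c3 ^ 2)) := by
      rw [← hc3]
      field_simp
    rw [e]
    exact DI.MP.mul_left h2v (DI.MP.mul_left g7.vp g7)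

end Pool.Agent.DN
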