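import Pool.Agent.Lib.DN.CV.V1

/-!
# Theorem DN, part CV, module V2: the terms of the symbol are class functions modulo `P` (author helper97)
-/

set_option autoImplicit false

open scoped Pointwise nonZeroDivisors

noncomputable section

namespace Pool.Agent.DN

open Pool.Agent.MuZ Pool.Agent.FW NumberField IsDedekindDomain
open Pool.Agent.DI (io ofC io_inj exists_io io_ofC ofC_io VP MP UP TP ex sqr sqr_sq kap)

variable {n t : ℕ}

/-! ## Characters -/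

theorem V2_up [SqN n t] {f : ℕ} {χ : Ideal (OO n t) → Om} (h : IsChi (2 * f) χ) {P : Ideal ZZ}
    (hP : P.IsPrime) {b : Ideal (OO n t)} (hb : FB f b) : UP P (χ b) := by
  obtain ⟨m, hm, h1⟩ := h.odd
  exact CV_up_of_pow hP hm.pos (h1 b hb.ne hb.cop)

theorem V2_ray [SqN n t] {f : ℕ} {χ : Ideal (OO n t) → Om} (h : IsChi (2 * f) χ) {b b' : Ideal (OO n t)}
    (hb : FB f b) (hb' : FB f b') (hr : Ray (2 * f) b b') : χ b = χ b' :=
  h.ray b b' hb.ne hb'.ne hb.cop hb'.cop hr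

theorem V2_top [SqN n t] {f : ℕ} {χ : Ideal (OO n t) → Om} (h : IsChi (2 * f) χ) {P : Ideal ZZ}
    (hP : P.IsPrime) : χ ⊤ = 1 := by
  have h1 := h.mul ⊤ ⊤
  rw [Ideal.top_mul] at h1
  have h2 := (V2_up h hP (CV_fb_top (n := n) (t := t) f)).ne_zero
  have h3 : χ ⊤ * 1 = χ ⊤ * χ ⊤ := by rw [mul_one]; exact h1
  exact (mul_left_cancel₀ h2 h3).symm

/-! ## The terms -/

/-- The term `χ(b) rO(1, b) (c3^k/2) E_b(r)`. -/
def Fb (P : Ideal ZZ) (f k : ℕ) (m : Ideal (OO n t)) (χ : Ideal (OO n t) → Om) (r : ℚ)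
    (b : Ideal (OO n t)) : Om := χ b * rO ⊤ b * (c3 ^ k / 2 * etE P f k m b r)

/-- The first half of the symbol. -/
def xw (P : Ideal ZZ) (f k : ℕ) (m : Ideal (OO n t)) (R : Finset (Ideal (OO n t)))
    (χ : Ideal (OO n t) → Om) (r : ℚ) : Om := ∑ b ∈ R, Fb P f k m χ r b

theorem xs_eq (P : Ideal ZZ) (f k : ℕ) (m : Ideal (OO n t)) (R : Finset (Ideal (OO n t)))
    (χ : Ideal (OO n t) → Om) (r : ℚ) : xs P f k m R χ r = xw P f k m R χ r + xw P f k m R χ (-r) := by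
  unfold xs xw Fb
  rw [← Finset.sum_add_distrib, Finset.mul_sum]
  refine Finset.sum_congr rfl fun b _ => ?_
  ring

/-- The framing is a unit at `P`. -/
theorem V2_rO_up [Ine n t] (hD2 : S_D2) {P : Ideal ZZ} (hP : Ab2 P) {f : ℕ} (h15 : 15 ∣ f)
    {b : Ideal (OO n t)} (hb : FB f b) : UP P (rO ⊤ b) := by
  have hb15 := V1_fb15 h15 hb
  have htop : G15 (⊤ : Ideal (OO n t)) := ⟨(CV_fb_top (n := n) (t := t) f).ne, CV_top _⟩
  have h := (hD2 n t P hP ⊤ htop).2.2.2.2.2.2 b hb.ne (CV_pri_dvd hb.cop (Dvd.intro _ rfl)) hb15.cop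
  rwa [Ideal.mul_top] at h

/-- The hypotheses of this part. -/
structure VH [Ine n t] (P : Ideal ZZ) (f M k : ℕ) (m : Ideal (OO n t)) (R : Finset (Ideal (OO n t)))
    (χ : Ideal (OO n t) → Om) : Prop where
  hP : Ab2 P
  hk : k = 1 ∨ k = 2
  hm : FM f m
  hR : FR f R
  hRC : IsRC f R
  hM : IsLw f m R M
  hχ : IsChi (2 * f) χ
  hTy : Ty P f χ (k - 1)
  T0 : S_T0
  C1 : S_C1
  C6 : S_C6
  C9 : S_C9
  C10 : S_C10
  B7 : S_B7
  R1 : S_R1
  D2 : S_D2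

variable [Ine n t] {P : Ideal ZZ} {f M k : ℕ} {m : Ideal (OO n t)} {R : Finset (Ideal (OO n t))}
  {χ : Ideal (OO n t) → Om}

theorem VH.vp (h : VH P f M k m R χ) {r : ℚ} (hr : r.den.Coprime M) {b : Ideal (OO n t)} (hb : FB f b) :
    VP P (Fb P f k m χ r b) := by
  have hPp := h.hP.1.1
  exact ((V2_up h.hχ hPp hb).1.mul (V2_rO_up h.D2 h.hP h.hm.dvd hb).1).mul
    (V1_E_vp h.T0 h.C6 h.C10 h.hP h.hk h.hm h.hR h.hRC h.hM.lv hb hr)

/-- The terms are class functions modulo `P`. -/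
theorem VH.cls (h : VH P f M k m R χ) {r : ℚ} (hr : r.den.Coprime M) {b b' : Ideal (OO n t)} (hb : FB f b)
    (hb' : FB f b') (hbb : Ray f b b') : MP P (Fb P f k m χ r b' - Fb P f k m χ r b) := by
  have hPp := h.hP.1.1
  have hf0 := h.hm.odd.pos
  obtain ⟨γ, h1, h2, h3⟩ := V1_lift hf0 hb hb' hbb
  have hγc := V1_cop2f h1 h2
  have hγ := CV_fb_sp hf0 hγc
  have hγb := CV_fb_mul hγ hb
  have hE := V1_E_mul (k := k) h.T0 h.C6 h.hP h.hm hb h1 h2 r
  have hE' := V1_E_ray (P := P) (k := k) h.C6 h.hm hb' hγb h3 r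
  have hχ1 : χ b' = χ (sp γ) * χ b := by rw [V2_ray h.hχ hb' hγb h3, h.hχ.mul]
  obtain ⟨β, β', k1, k2, k3, k4, k5⟩ := V1_ray_one (by omega) h3
  have hdv : ∀ {v : OO n t}, ((2 * f : ℕ) : OO n t) ∣ v - 1 → (15 : OO n t) ∣ v - 1 := by
    intro v hv
    have h5 := CV_cast_dvd (dvd_trans h.hm.dvd (Dvd.intro_left _ rfl)) hv
    have e4 : (((15 : ℕ) : OO n t)) = 15 := by norm_num
    rwa [e4] at h5
  have h15γ : (15 : OO n t) ∣ γ - 1 := by
    have h5 := CV_cast_dvd h.hm.dvd h1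
    have e4 : (((15 : ℕ) : OO n t)) = 15 := by norm_num
    rwa [e4] at h5
  have htop : G15 (⊤ : Ideal (OO n t)) := ⟨(CV_fb_top (n := n) (t := t) f).ne, CV_top _⟩
  have hb15 := V1_fb15 h.hm.dvd hb
  have hb'15 := V1_fb15 h.hm.dvd hb'
  have e1 := V1_rO_mul h.R1 h.B7 htop hb'15 (hdv k3)
  have e2 := V1_rO_mul h.R1 h.B7 htop (V1_fb15 h.hm.dvd hγb) (hdv k4)
  rw [V1_rO_mul h.R1 h.B7 htop hb15 h15γ] at e2
  rw [k5, e2] at e1
  -- units
  have hT := h.T0.2 n t P h.hP γ γ h2 h2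
  have hz : UP P (zt P γ ^ k) := (CV_up_of_pow hPp (by norm_num) hT.1).pow k
  have hone : ∀ {v : OO n t}, ((2 * f : ℕ) : OO n t) ∣ v - 1 → MP P (toO v - 1) := by
    rintro v ⟨w, hw⟩
    have h6 : v = 1 + ((2 * f : ℕ) : OO n t) * w := by rw [← hw]; ring
    rw [h6, toO_add, toO_one, toO_mul, toO_nat, add_sub_cancel_left]
    have h7 : (((2 * f : ℕ)) : Om) = 2 * (f : Om) := by push_cast; ring
    rw [h7]
    exact DI.MP.mul_right (DI.MP.mul_right h.hP.2 (DI.VP.nat f)) (toO_VP w)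
  have hβu : UP P (toO β) := DI.UP.congr DI.UP.one (hone k3)
  have hz0 := hz.ne_zero
  have hβ0 := hβu.ne_zero
  -- the quotient
  have e3 : Fb P f k m χ r b' =
      (χ (sp γ) * (toO β' * toO γ * (toO β)⁻¹) * (zt P γ ^ k)⁻¹) * Fb P f k m χ r b := by
    unfold Fb
    have e4 : rO ⊤ b' = toO β' * toO γ * (toO β)⁻¹ * rO ⊤ b := by
      field_simp
      linear_combination -e1
    rw [hχ1, hE', e4, ← hE]
    field_simp
  have e5 : Fb P f k m χ r b' - Fb P f k m χ r b =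
      (χ (sp γ) * (toO β' * toO γ * (toO β)⁻¹) * (zt P γ ^ k)⁻¹ - 1) * Fb P f k m χ r b := by
    rw [e3]
    ring
  rw [e5]
  refine DI.MP.mul_right ?_ (h.vp hr hb)
  -- the factor
  have hzg : MP P (zt P γ - toO γ) := CV_tp_mp hPp h.hP.2 hT.2.1
  have hγv : VP P (toO γ) := toO_VP γ
  have hγu : UP P (toO γ) := DI.UP.congr (CV_up_of_pow hPp (by norm_num) hT.1) (CV_mp_symm hzg)
  have hpow : MP P (zt P γ ^ k - toO γ ^ k) := by
    rcases h.hk with hk | hk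
    · rw [hk, pow_one, pow_one]
      exact hzg
    · rw [hk]
      have e6 : zt P γ ^ 2 - toO γ ^ 2 = (zt P γ - toO γ) * (zt P γ + toO γ) := by ring
      rw [e6]
      exact DI.MP.mul_right hzg ((CV_up_of_pow hPp (by norm_num) hT.1).1.add hγv)
  have hty := h.hTy γ h1 h2
  have hk1 : toO γ ^ k = toO γ ^ (k - 1) * toO γ := by
    rw [← pow_succ]
    congr 1
    rcases h.hk with hk | hk <;> omega
  -- numerator minus denominator
  have hnum : MP P (χ (sp γ) * (toO β' * toO γ) - zt P γ ^ k * toO β) := by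
    have f1 : MP P (χ (sp γ) * (toO β' * toO γ) - toO γ ^ (k - 1) * (1 * toO γ)) := by
      refine CV_mp_mul hPp ((toO_VP β').mul hγv) (hγv.pow _) hty ?_
      exact CV_mp_mul hPp hγv DI.VP.one (hone k4) (CV_mp_refl hPp _)
    have f2 : MP P (zt P γ ^ k * toO β - toO γ ^ k * 1) :=
      CV_mp_mul hPp hβu.1 (hγv.pow _) hpow (hone k3)
    have f3 := f1.sub f2
    rw [hk1] at f3
    have e7 : χ (sp γ) * (toO β' * toO γ) - toO γ ^ (k - 1) * (1 * toO γ) -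
        (zt P γ ^ k * toO β - toO γ ^ (k - 1) * toO γ * 1) =
        χ (sp γ) * (toO β' * toO γ) - zt P γ ^ k * toO β := by ring
    rwa [e7] at f3
  have e8 : χ (sp γ) * (toO β' * toO γ * (toO β)⁻¹) * (zt P γ ^ k)⁻¹ - 1 =
      (χ (sp γ) * (toO β' * toO γ) - zt P γ ^ k * toO β) * ((toO β)⁻¹ * (zt P γ ^ k)⁻¹) := by
    field_simp
  rw [e8]
  exact DI.MP.mul_right hnum (hβu.inv.1.mul hz.inv.1)

/-- The sum over the classes, translated. -/
theorem VH.sum (h : VH P f M k m R χ) {r : ℚ} (hr : r.den.Coprime M) {c : Ideal (OO n t)} (hc : FB f c) :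
    MP P (∑ b ∈ R, Fb P f k m χ r (c * b) - ∑ b ∈ R, Fb P f k m χ r b) := by
  classical
  have hPp := h.hP.1.1
  have hf0 := h.hm.odd.pos
  have hex : ∀ b : Ideal (OO n t), ∃ b' : Ideal (OO n t), b ∈ R → b' ∈ R ∧ Ray f (c * b) b' := by
    intro b
    by_cases hb : b ∈ R
    · have h1 := CV_fb_mul hc (h.hR b hb)
      obtain ⟨b', hb', h2⟩ := h.hRC.ex (c * b) h1.ne (CV_pri_dvd h1.cop (Dvd.intro_left _ rfl))
      exact ⟨b', fun _ => ⟨hb', h2⟩⟩
    · exact ⟨⊤, fun h1 => absurd h1 hb⟩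
  choose π hπ using hex
  obtain ⟨h71, h72, h73, h74, h75, -⟩ := aO7 n t f hf0
  have hmaps : Set.MapsTo π (R : Set (Ideal (OO n t))) R := fun b hb => (hπ b hb).1
  have hinj : Set.InjOn π (R : Set (Ideal (OO n t))) := by
    intro b hb b' hb' hbb
    have h1 := (hπ b hb).2
    have h2 := (hπ b' hb').2
    rw [← hbb] at h2
    have h3 := h73 _ _ _ h1 (h72 _ _ h2)
    refine h.hRC.uni b hb b' hb' (h75 b b' c hc.ne (CV_pri_dvd hc.cop (Dvd.intro_left _ rfl)) ?_)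
    rw [mul_comm b c, mul_comm b' c]
    exact h3
  have hsurj : Set.SurjOn π (R : Set (Ideal (OO n t))) R :=
    Finset.surjOn_of_injOn_of_card_le π hmaps hinj le_rfl
  have e1 : ∑ b ∈ R, Fb P f k m χ r b = ∑ b ∈ R, Fb P f k m χ r (π b) :=
    (Finset.sum_nbij π hmaps hinj hsurj fun b _ => rfl).symm
  rw [e1, ← Finset.sum_sub_distrib]
  refine DI.MP.sum _ _ fun b hb => ?_
  exact CV_mp_symm (h.cls hr (CV_fb_mul hc (h.hR b hb)) (h.hR _ (hπ b hb).1) (hπ b hb).2)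

end Pool.Agent.DN
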