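import Pool.Agent.Lib.DN.CV.V2
import Pool.Agent.Lib.DN.C.Ech

/-!
# Theorem DN, part CV, module V3: the transformation of the symbol, `S_V` (author helper97)
-/

set_option autoImplicit false

open scoped Pointwise nonZeroDivisors

noncomputable section

namespace Pool.Agent.DN

open Pool.Agent.MuZ Pool.Agent.FW NumberField IsDedekindDomain
open Pool.Agent.DI (io ofC io_inj exists_io io_ofC ofC_io VP MP UP TP ex sqr sqr_sq kap)

variable {n t : ℕ}

variable [Ine n t] {P : Ideal ZZ} {f M k : ℕ} {m : Ideal (OO n t)} {R : Finset (Ideal (OO n t))}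
  {χ : Ideal (OO n t) → Om}

/-! ## The matrices which are `1` modulo `2` -/

/-- The function `E_b`. -/
theorem VH.E_even (h : VH P f M k m R χ) {a b' c d : ℤ} (hG : G0 M a b' c d) (hb2 : Even b')
    (hc2 : Even c) {b : Ideal (OO n t)} (hb : FB f b) {r : ℚ} (hr : r.den.Coprime M) :
    FB f (sp (a : OO n t)) ∧
    etE P f k m b ((a * r + b') / (c * r + d)) =
      (eps n t d : Om) * (rO b (sp (a : OO n t) * b) / a) *
        (etE P f k m (sp (a : OO n t) * b) r - etE P f k m (sp (a : OO n t) * b) 0) +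
      etE P f k m b (b' / d) := by
  have hf0 := h.hm.odd.pos
  obtain ⟨R2, hR2, hRC2, hLv2⟩ := h.hM.ex
  obtain ⟨hfM, -, -, -⟩ := CV_lvd hLv2
  have hM2 : 2 ≤ M := le_trans (by norm_num) hLv2.three
  obtain ⟨b1, hb1⟩ := hb2
  obtain ⟨c1, hc1⟩ := hc2
  obtain ⟨hdM, haM, hne, -⟩ := CV_mob hM2 hG hr
  have haf : IsCoprime a (f : ℤ) := haM.of_isCoprime_of_dvd_right (by exact_mod_cast hfM)
  have ha2 : IsCoprime a (2 : ℤ) := ⟨d, -(b' * c1), by rw [← hG.1, hc1]; ring⟩
  have ha2f : Cop (a : OO n t) (2 * f) := by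
    apply CV_cop_int
    push_cast
    exact ha2.mul_right haf
  have hA : FB f (sp (a : OO n t)) := CV_fb_sp hf0 ha2f
  refine ⟨hA, ?_⟩
  have hG4 : G0 (4 * M) a b1 (2 * c) d := by
    refine ⟨?_, ?_⟩
    · rw [← hG.1, hb1]
      ring
    · obtain ⟨c2, hc2⟩ := hG.2
      have h1 : (2 : ℤ) ∣ M * c2 := by
        rw [← hc2]
        exact ⟨c1, by rw [hc1]; ring⟩
      have h2 : IsCoprime (2 : ℤ) (M : ℤ) := by
        have := Nat.isCoprime_iff_coprime.2 (Nat.coprime_two_left.2 hLv2.odd)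
        exact_mod_cast this
      obtain ⟨c3', hc3'⟩ := h2.dvd_of_dvd_mul_left h1
      refine ⟨c3', ?_⟩
      push_cast
      rw [hc2, hc3']
      ring
  have hr2 : (r / 2).den.Coprime M := by
    have h1 : (r.num : ℚ) / (r.den : ℚ) = r := Rat.num_div_den r
    refine CV_den_coprime (p := r.num) (q := r.den * 2) ?_ hM2 ?_
    · refine IsCoprime.mul_left (Nat.isCoprime_iff_coprime.2 hr) ?_
      have := Nat.isCoprime_iff_coprime.2 (Nat.coprime_two_left.2 hLv2.odd)
      exact_mod_cast this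
    · push_cast
      rw [← div_div, h1]
  -- the terms
  have key : ∀ α ∈ tm n t f, etaM (2 * f) m (sp α * b) (((a * r + b') / (c * r + d)) / 2) =
      (eps n t d : Om) * (rO b (sp (a : OO n t) * b) / a) *
        (etaM (2 * f) m (sp α * (sp (a : OO n t) * b)) (r / 2) -
          etaM (2 * f) m (sp α * (sp (a : OO n t) * b)) (0 / 2)) +
      etaM (2 * f) m (sp α * b) ((b' / d) / 2) := by
    intro α hα
    obtain ⟨hα1, hα2⟩ := CV_tm h.hm.odd hα
    have hαF := CV_fb_sp hf0 (V1_cop2f hα1 hα2)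
    have hαb := CV_fb_mul hαF hb
    obtain ⟨b2, hb2R, hray⟩ := hRC2.ex (sp α * b) hαb.ne hαb.cop
    have hb2F := hR2 b2 hb2R
    obtain ⟨-, hd0, h5⟩ := h.C1 n t f M m b2 h.hm hb2F (CV_lv hLv2 hb2R) a b1 (2 * c) d hG4
    obtain ⟨-, h6⟩ := h5 (r / 2) hr2
    have hray' : Ray (2 * f) (sp α * (sp (a : OO n t) * b)) (sp (a : OO n t) * b2) := by
      have h7 := V1_ray_mul (F := 2 * f) (by omega) (V1_ray_refl (by omega) (sp (a : OO n t))) hray
      have e : sp (a : OO n t) * (sp α * b) = sp α * (sp (a : OO n t) * b) := by ring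
      rwa [e] at h7
    have hab := CV_fb_mul hαF (CV_fb_mul hA hb)
    have e1 : ∀ s : ℚ, etaM (2 * f) m (sp α * b) s = etaM (2 * f) m b2 s := fun s =>
      ((h.C6 n t f m _ h.hm hαb).1 _ hb2F hray).2 s
    have e2 : ∀ s : ℚ, etaM (2 * f) m (sp α * (sp (a : OO n t) * b)) s =
        etaM (2 * f) m (sp (a : OO n t) * b2) s := fun s =>
      ((h.C6 n t f m _ h.hm hab).1 _ (CV_fb_mul hA hb2F) hray').2 s
    -- the framings
    have h15 := h.hm.dvd
    have h15f : ∀ {v : OO n t}, (f : OO n t) ∣ v - 1 → (15 : OO n t) ∣ v - 1 := by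
      intro v hv
      have h8 := CV_cast_dvd h15 hv
      have e4 : (((15 : ℕ) : OO n t)) = 15 := by norm_num
      rwa [e4] at h8
    obtain ⟨β, β', k1, k2, k3, k4, k5⟩ := V1_ray_one (by omega) hray
    have k3' := h15f (CV_cast_dvd (Dvd.intro_left _ rfl : f ∣ 2 * f) k3)
    have k4' := h15f (CV_cast_dvd (Dvd.intro_left _ rfl : f ∣ 2 * f) k4)
    have k6 : sp (β * α) * b = sp β' * b2 := by
      rw [← k5, ← CV_sp_mul]
      ring
    have k7 : (15 : OO n t) ∣ β * α - 1 := by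
      have e : β * α - 1 = β * (α - 1) + (β - 1) := by ring
      rw [e]
      exact dvd_add (dvd_mul_of_dvd_right (h15f hα1) _) k3'
    have e3 := V1_rO_ratio h.R1 h.B7 (V1_fb15 h15 hA) (V1_fb15 h15 hb) (V1_fb15 h15 hb2F) k7 k4' k6
    have e4 : ((a * r + b') / (c * r + d)) / 2 = (a * (r / 2) + b1) / (((2 * c : ℤ) : ℚ) * (r / 2) + d) := by
      have e5 : ((2 * c : ℤ) : ℚ) * (r / 2) + d = c * r + d := by
        push_cast
        ring
      rw [e5, hb1]
      push_cast
      ring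
    have hd0' : (d : ℚ) ≠ 0 := by exact_mod_cast hd0
    have e5 : ((b' : ℚ) / d) / 2 = b1 / d := by
      rw [hb1]
      push_cast
      ring
    rw [e1, e1, e2, e2, e3, e4, e5, h6, zero_div]
  unfold etE
  rw [← Finset.sum_sub_distrib, Finset.mul_sum, ← Finset.sum_add_distrib]
  refine Finset.sum_congr rfl fun α hα => ?_
  rw [key α hα]
  ring

/-- The statement (*): the transformation of the first half of the symbol. -/
def VT (P : Ideal ZZ) (f M k : ℕ) (m : Ideal (OO n t)) (R : Finset (Ideal (OO n t)))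
    (χ : Ideal (OO n t) → Om) (a b c d : ℤ) : Prop :=
  ∀ d' : ℤ, Odd d' → (M : ℤ) ∣ d' - d → ∀ r : ℚ, r.den.Coprime M →
    MP P (xw P f k m R χ ((a * r + b) / (c * r + d)) - xw P f k m R χ (b / d) -
      χ (sp (d' : OO n t)) * (xw P f k m R χ r - xw P f k m R χ 0))

theorem VH.even (h : VH P f M k m R χ) {a b' c d : ℤ} (hG : G0 M a b' c d) (hb2 : Even b')
    (hc2 : Even c) : VT P f M k m R χ a b' c d := by
  intro d' hd' hdd r hr
  have hPp := h.hP.1.1
  have hf0 := h.hm.odd.pos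
  have hLv := h.hM.lv
  obtain ⟨hfM, -, hDM, -⟩ := CV_lvd hLv
  have hM2 : 2 ≤ M := le_trans (by norm_num) hLv.three
  obtain ⟨hdM, haM, hne, -⟩ := CV_mob hM2 hG hr
  have hA := (h.E_even hG hb2 hc2 (CV_fb_top (n := n) (t := t) f) hr).1
  have h15 := h.hm.dvd
  have htop : G15 (⊤ : Ideal (OO n t)) := ⟨(CV_fb_top (n := n) (t := t) f).ne, CV_top _⟩
  -- parities
  obtain ⟨c1, hc1⟩ := hc2
  have had : Odd (a * d) := by
    have e : a * d = 2 * (b' * c1) + 1 := by rw [← hG.1, hc1]; ring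
    exact ⟨b' * c1, e⟩
  obtain ⟨hao, hdo⟩ := Int.odd_mul.1 had
  have ha0 : a ≠ 0 := by
    rintro rfl
    exact absurd hao (by decide)
  have haO : (a : Om) ≠ 0 := by exact_mod_cast ha0
  have hau := CV_up_odd hPp h.hP.2 hao
  -- the characters
  have hχa := V2_up h.hχ hPp hA
  have h1 : χ (sp (a : OO n t)) * χ (sp (d' : OO n t)) = 1 := by
    rw [← h.hχ.mul, CV_sp_mul, ← V2_top h.hχ hPp]
    have hmd : ((2 * f : ℕ) : OO n t) ∣ (a : OO n t) * (d' : OO n t) - 1 := by
      have e : (a : OO n t) * (d' : OO n t) - 1 = ((a * d' - 1 : ℤ) : OO n t) := by push_cast; ring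
      rw [e, nat_dvd_iff, re_int, im_int]
      refine ⟨?_, dvd_zero _⟩
      have hfM' : (f : ℤ) ∣ (M : ℤ) := by exact_mod_cast hfM
      push_cast
      refine IsCoprime.mul_dvd ?_ ?_ ?_
      · have := Nat.isCoprime_iff_coprime.2 (Nat.coprime_two_left.2 h.hm.odd)
        exact_mod_cast this
      · obtain ⟨x, hx⟩ := hao
        obtain ⟨y, hy⟩ := hd'
        exact ⟨2 * x * y + x + y, by rw [hx, hy]; ring⟩
      · refine dvd_trans hfM' ?_
        obtain ⟨c2, hc2⟩ := hG.2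
        obtain ⟨s, hs⟩ := hdd
        refine ⟨a * s + b' * c2, ?_⟩
        have h2 := hG.1
        rw [hc2] at h2
        linear_combination a * hs + h2
    have h3 : Cop ((a : OO n t) * (d' : OO n t)) (2 * f) := CV_cop_of_dvd hmd
    rw [V2_ray h.hχ (CV_fb_sp hf0 h3) (CV_fb_top f) ?_]
    have h4 := V1_ray_congr (by omega) h3 (cop_one (2 * f)) hmd
    rwa [CV_sp_one] at h4
  have hχ0 := hχa.ne_zero
  -- the symbol of `d`
  have hD : IsCoprime d (Dk n t : ℤ) := hdM.of_isCoprime_of_dvd_right (by exact_mod_cast hDM)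
  have heps : MP P ((eps n t d : Om) - 1) := by
    rcases (C.tEch n t).1 d hdo hD with h2 | h2
    · rw [h2]
      push_cast
      rw [sub_self]
      exact DI.MP.zero
    · rw [h2]
      push_cast
      have e : (-1 - 1 : Om) = -2 := by norm_num
      rw [e]
      exact h.hP.2.neg
  -- the sums
  have e1 : xw P f k m R χ ((a * r + b') / (c * r + d)) - xw P f k m R χ (b' / d) =
      ((eps n t d : Om) * (a : Om)⁻¹ * χ (sp (d' : OO n t))) *
        (∑ b ∈ R, Fb P f k m χ r (sp (a : OO n t) * b) - ∑ b ∈ R, Fb P f k m χ 0 (sp (a : OO n t) * b)) := by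
    unfold xw
    rw [← Finset.sum_sub_distrib, ← Finset.sum_sub_distrib, Finset.mul_sum]
    refine Finset.sum_congr rfl fun b hb => ?_
    have hbF := h.hR b hb
    have h2 := (h.E_even hG hb2 ⟨c1, hc1⟩ hbF hr).2
    have hb15 := V1_fb15 h15 hbF
    have hab15 := V1_G15_mul (V1_fb15 h15 hA) hb15
    have h3 : rO ⊤ (sp (a : OO n t) * b) = rO ⊤ b * rO b (sp (a : OO n t) * b) := by
      obtain ⟨k1, k2, k3⟩ := V1_rO h.R1 htop hab15
      obtain ⟨k4, -, k6⟩ := V1_rO h.R1 htop hb15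
      obtain ⟨k7, -, -⟩ := V1_rO h.R1 hb15 hab15
      apply io_inj
      rw [map_mul, k1, k4, k7]
      field_simp
    have h4 : χ b = χ (sp (d' : OO n t)) * χ (sp (a : OO n t) * b) := by
      rw [h.hχ.mul]
      linear_combination (-χ b) * h1
    unfold Fb
    rw [h2, h3]
    have e3 : ∀ X : Om, χ b * X = χ (sp (d' : OO n t)) * χ (sp (a : OO n t) * b) * X := by
      intro X
      rw [← h4]
    rw [mul_assoc (χ b), mul_assoc (χ b), e3, e3]
    field_simp
    ring
  rw [e1]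
  have hz : (0 : ℚ).den.Coprime M := by simp
  have s1 := h.sum hr hA
  have s2 := h.sum hz hA
  have hd'u : UP P (χ (sp (d' : OO n t))) := by
    have e : χ (sp (d' : OO n t)) = (χ (sp (a : OO n t)))⁻¹ := by
      field_simp
      linear_combination h1
    rw [e]
    exact hχa.inv
  have hvp : ∀ {s : ℚ}, s.den.Coprime M → VP P (∑ b ∈ R, Fb P f k m χ s b) := fun hs =>
    DI.VP.sum _ _ fun b hb => h.vp hs (h.hR b hb)
  have hS : MP P ((∑ b ∈ R, Fb P f k m χ r (sp (a : OO n t) * b) -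
      ∑ b ∈ R, Fb P f k m χ 0 (sp (a : OO n t) * b)) - (xw P f k m R χ r - xw P f k m R χ 0)) := by
    have h5 := s1.sub s2
    unfold xw
    have e : ∀ x y z w : Om, x - y - (z - w) = x - z - (y - w) := fun x y z w => by ring
    rwa [e] at h5
  have hfac : MP P ((eps n t d : Om) * (a : Om)⁻¹ * χ (sp (d' : OO n t)) - χ (sp (d' : OO n t))) := by
    have h6 : MP P ((a : Om)⁻¹ - 1) := by
      have e : (a : Om)⁻¹ - 1 = -(((a : Om) - 1) * (a : Om)⁻¹) := by
        field_simp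
        ring
      rw [e]
      exact (DI.MP.mul_right (CV_mp_int hPp h.hP.2 hao) hau.inv.1).neg
    have h7 := CV_mp_mul hPp hau.inv.1 DI.VP.one heps h6
    have h8 := DI.MP.mul_right h7 hd'u.1
    have e : ((eps n t d : Om) * (a : Om)⁻¹ - 1 * 1) * χ (sp (d' : OO n t)) =
        (eps n t d : Om) * (a : Om)⁻¹ * χ (sp (d' : OO n t)) - χ (sp (d' : OO n t)) := by ring
    rwa [e] at h8
  have hv1 : VP P (∑ b ∈ R, Fb P f k m χ r (sp (a : OO n t) * b) -
      ∑ b ∈ R, Fb P f k m χ 0 (sp (a : OO n t) * b)) := by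
    refine DI.VP.sub (DI.VP.sum _ _ fun b hb => h.vp hr (CV_fb_mul hA (h.hR b hb)))
      (DI.VP.sum _ _ fun b hb => h.vp hz (CV_fb_mul hA (h.hR b hb)))
  exact CV_mp_mul hPp hv1 hd'u.1 hfac hS

end Pool.Agent.DN
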